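import Pool.Agent.Helper929.FP.Base

open ArithmeticFunction Finset

namespace FacPow



theorem geom_log_le_pow {p : ℕ} (q z : ℕ) (h : p ∣ ∑ i ∈ range q, z ^ i) : (z : ZMod p) ^ q = 1 := by
  have h0 : ((∑ i ∈ range q, z ^ i : ℕ) : ZMod p) = 0 := (ZMod.natCast_eq_zero_iff _ _).2 h
  have h1 := geom_sum_mul (z : ZMod p) q
  push_cast at h0
  rw [h0, zero_mul] at h1
  exact sub_eq_zero.1 h1.symm

theorem geom_log_le_A {p q z : ℕ} (hp : p.Prime) (hq : q.Prime)
    (h : p ∣ ∑ i ∈ range q, z ^ i) : p = q ∨ p % q = 1 := by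
  have := Fact.mk hp
  have h1 := geom_log_le_pow q z h
  rcases (Nat.dvd_prime hq).1 (orderOf_dvd_of_pow_eq_one h1) with h2 | h2
  · left
    rw [orderOf_eq_one_iff] at h2
    have h0 : ((∑ i ∈ range q, z ^ i : ℕ) : ZMod p) = 0 := (ZMod.natCast_eq_zero_iff _ _).2 h
    push_cast at h0
    rw [h2] at h0
    simp at h0
    have h3 : p ∣ q := (ZMod.natCast_eq_zero_iff _ _).1 h0
    exact (Nat.prime_dvd_prime_iff_eq hp hq).1 h3
  · right
    have hz : (z : ZMod p) ≠ 0 := by
      intro h0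
      rw [h0, zero_pow hq.ne_zero] at h1
      exact zero_ne_one h1
    have h3 := ZMod.orderOf_dvd_card_sub_one hz
    rw [h2] at h3
    obtain ⟨k, hk⟩ := h3
    have hp1 := hp.one_lt
    have h4 : p = 1 + q * k := by omega
    rw [h4, Nat.add_mul_mod_self_left]
    exact Nat.mod_eq_of_lt hq.one_lt

theorem geom_log_le_B {q z : ℕ} (hq : q.Prime) (hq3 : 3 ≤ q) : ¬ q ^ 2 ∣ ∑ i ∈ range q, z ^ i := by
  intro h
  have hqG : q ∣ ∑ i ∈ range q, z ^ i := (dvd_pow_self q two_ne_zero).trans h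
  have := Fact.mk hq
  have h1 := geom_log_le_pow q z hqG
  rw [ZMod.pow_card] at h1
  have h2 : (q : ℤ) ∣ (z : ℤ) - 1 := by
    rw [← ZMod.intCast_zmod_eq_zero_iff_dvd]
    push_cast
    rw [h1, sub_self]
  obtain ⟨t, ht⟩ := h2
  have hz : (z : ℤ) = 1 + q * t := by linarith
  have hi : ∀ i : ℕ, ((q : ℤ) ^ 2) ∣ (z : ℤ) ^ i - (1 + i * (q * t)) := by
    intro i
    induction i with
    | zero => simp
    | succ i ih =>
      have e : (z : ℤ) ^ (i + 1) - (1 + ((i + 1 : ℕ) : ℤ) * (q * t)) =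
          (1 + q * t) * ((z : ℤ) ^ i - (1 + i * (q * t))) + (q : ℤ) ^ 2 * (i * t ^ 2) := by
        rw [pow_succ]
        conv_lhs => rw [show (z : ℤ) ^ i * z = (z : ℤ) ^ i * (1 + q * t) by rw [← hz]]
        push_cast
        ring
      rw [e]
      exact dvd_add (Dvd.dvd.mul_left ih _) (Dvd.intro _ rfl)
  have hs : ((q : ℤ) ^ 2) ∣ ∑ i ∈ range q, ((z : ℤ) ^ i - (1 + i * (q * t))) :=
    Finset.dvd_sum (fun i _ => hi i)
  rw [Finset.sum_sub_distrib, Finset.sum_add_distrib, ← Finset.sum_mul] at hs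
  simp only [Finset.sum_const, Finset.card_range, nsmul_eq_mul, mul_one] at hs
  have hG : ((q : ℤ) ^ 2) ∣ ∑ i ∈ range q, (z : ℤ) ^ i := by
    have := Int.natCast_dvd_natCast.2 h
    push_cast at this
    exact this
  have h3 := (Int.dvd_iff_dvd_of_dvd_sub hs).1 hG
  have h4 : q ∣ ∑ i ∈ range q, i := by
    have h5 := Finset.sum_range_id_mul_two q
    have h6 : q ∣ (∑ i ∈ range q, i) * 2 := by rw [h5]; exact Dvd.intro _ rfl
    have h7 : Nat.Coprime q 2 := by
      rw [Nat.coprime_primes hq Nat.prime_two]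
      omega
    exact h7.dvd_of_dvd_mul_right h6
  obtain ⟨s, hs2⟩ := h4
  have h8 : (∑ i ∈ range q, (i : ℤ)) = q * s := by
    have : ((∑ i ∈ range q, i : ℕ) : ℤ) = ((q * s : ℕ) : ℤ) := by rw [hs2]
    push_cast at this
    exact this
  rw [h8] at h3
  have h9 : ((q : ℤ) ^ 2) ∣ (q : ℤ) := by
    have e9 : (q : ℤ) = (q + q * s * (q * t)) - q ^ 2 * (s * t) := by ring
    have h12 := dvd_sub h3 (Dvd.intro (s * t) (rfl : (q : ℤ) ^ 2 * (s * t) = _))
    rw [← e9] at h12
    exact h12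
  have h10 : q ^ 2 ∣ q := by exact_mod_cast h9
  have h11 := Nat.le_of_dvd hq.pos h10
  nlinarith

/-- TARGET: a prime p dividing 1+z+...+z^(q-1) is = 1 mod q or equals q, and q^2 does not divide it. -/
theorem geom_log_le {q : ℕ} (hq : q.Prime) (hq3 : 3 ≤ q) {z n : ℕ} (hz : 2 ≤ z)
    (hG : (∑ i ∈ range q, z ^ i) ∣ n.factorial) :
    Real.log ((∑ i ∈ range q, z ^ i : ℕ) : ℝ) ≤ Real.log q + ell (ind q) n.factorial := by
  have hind : ∀ p, 0 ≤ ind q p := by
    intro p; unfold ind; split_ifs <;> norm_num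
  have h1 := ell_dvd_le hind hG (Nat.factorial_ne_zero n)
  have hqlog : 0 ≤ Real.log q := Real.log_nonneg (by exact_mod_cast hq.one_le)
  refine le_trans ?_ (add_le_add_right h1 _)
  have hA : ∀ p ∈ (∑ i ∈ range q, z ^ i).primeFactors, p = q ∨ p % q = 1 := fun p hp =>
    geom_log_le_A (Nat.prime_of_mem_primeFactors hp) hq (Nat.dvd_of_mem_primeFactors hp)
  have hB := geom_log_le_B (z := z) hq hq3
  have hG0 : (∑ i ∈ range q, z ^ i) ≠ 0 := by
    have : z ^ 0 ≤ ∑ i ∈ range q, z ^ i :=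
      Finset.single_le_sum (f := fun i => z ^ i) (fun i _ => Nat.zero_le _) (Finset.mem_range.2 hq.pos)
    rw [pow_zero] at this
    omega
  generalize (∑ i ∈ range q, z ^ i) = G at hA hB hG0
  have hv : G.factorization q ≤ 1 := by
    by_contra hcon
    exact hB ((hq.pow_dvd_iff_le_factorization hG0).2 (by omega))
  rw [← ell_one, ell_eq, ell_eq]
  have h2 : ∑ p ∈ G.primeFactors, (G.factorization p : ℝ) * (Real.log p * 1) ≤
      ∑ p ∈ G.primeFactors, ((if p = q then Real.log q else 0) +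
        (G.factorization p : ℝ) * (Real.log p * ind q p)) := by
    apply Finset.sum_le_sum
    intro p hp
    by_cases hpq : p = q
    · subst hpq
      rw [if_pos rfl]
      have hi0 : ind p p = 0 := by
        unfold ind
        rw [Nat.mod_self, if_neg (by norm_num)]
      rw [hi0, mul_zero, mul_zero, add_zero, mul_one]
      have : (G.factorization p : ℝ) ≤ 1 := by exact_mod_cast hv
      nlinarith
    · have hi1 : ind q p = 1 := by
        unfold ind
        rw [if_pos ((hA p hp).resolve_left hpq)]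
      rw [if_neg hpq, hi1, zero_add]
  refine le_trans h2 ?_
  rw [Finset.sum_add_distrib]
  apply add_le_add_left
  rw [Finset.sum_ite_eq']
  split_ifs
  · exact le_refl _
  · exact hqlog

end FacPow
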