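import Mathlib

open ArithmeticFunction Finset

namespace FacPow

/-- the part of `log j` carried by primes, weighted by `h` -/
noncomputable def ell (h : ℕ → ℝ) (j : ℕ) : ℝ :=
  ∑ d ∈ j.divisors, vonMangoldt d * h d.minFac

noncomputable def ind (q : ℕ) (p : ℕ) : ℝ := if p % q = 1 then 1 else 0

noncomputable def chi (n : ℕ) : ℝ :=
  if n % 3 = 1 then 1 else if n % 3 = 2 then -1 else 0

theorem ell_eq (h : ℕ → ℝ) (j : ℕ) :
    ell h j = ∑ p ∈ j.primeFactors, (j.factorization p : ℝ) * (Real.log p * h p) := by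
  unfold ell
  refine Nat.recOnPrimeCoprime ?_ ?_ ?_ j
  · simp
  · intro p k hp
    rw [Nat.sum_divisors_prime_pow hp, Finset.sum_range_succ', Nat.pow_zero,
      vonMangoldt_apply_one]
    rcases Nat.eq_zero_or_pos k with rfl | hk
    · simp
    rw [Nat.primeFactors_prime_pow hk.ne' hp]
    simp only [zero_mul, add_zero, Finset.sum_singleton, hp.factorization_pow,
      Finsupp.single_eq_same]
    rw [Finset.sum_congr rfl (g := fun _ => Real.log p * h p)]
    · simp
    · intro i _
      rw [vonMangoldt_apply_pow (Nat.succ_ne_zero _), vonMangoldt_apply_prime hp,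
        hp.pow_minFac (Nat.succ_ne_zero _)]
  · intro a b ha' hb' hab ha hb
    have key : ∀ n : ℕ, ∑ i ∈ n.divisors, vonMangoldt i * h i.minFac
        = ∑ i ∈ n.divisors with IsPrimePow i, Real.log i.minFac * h i.minFac := by
      intro n
      rw [Finset.sum_filter]
      refine Finset.sum_congr rfl fun i _ => ?_
      rw [vonMangoldt_apply]
      split_ifs <;> simp
    rw [key] at ha hb ⊢
    rw [Nat.mul_divisors_filter_prime_pow hab, filter_union,
      sum_union (Nat.disjoint_divisors_filter_isPrimePow hab), ha, hb,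
      Nat.Coprime.primeFactors_mul hab, Finset.sum_union (Nat.Coprime.disjoint_primeFactors hab)]
    have ha0 : a ≠ 0 := by omega
    have hb0 : b ≠ 0 := by omega
    congr 1
    · refine Finset.sum_congr rfl fun p hp => ?_
      rw [Nat.factorization_mul ha0 hb0]
      have : b.factorization p = 0 := by
        apply Nat.factorization_eq_zero_of_not_dvd
        intro hpb
        exact (Nat.prime_of_mem_primeFactors hp).one_lt.ne'
          (Nat.eq_one_of_dvd_coprimes hab (Nat.dvd_of_mem_primeFactors hp) hpb)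
      simp [this]
    · refine Finset.sum_congr rfl fun p hp => ?_
      rw [Nat.factorization_mul ha0 hb0]
      have : a.factorization p = 0 := by
        apply Nat.factorization_eq_zero_of_not_dvd
        intro hpb
        exact (Nat.prime_of_mem_primeFactors hp).one_lt.ne'
          (Nat.eq_one_of_dvd_coprimes hab hpb (Nat.dvd_of_mem_primeFactors hp))
      simp [this]

theorem ell_eq_sum (h : ℕ → ℝ) (j : ℕ) :
    ell h j = j.factorization.sum (fun p v => (v : ℝ) * (Real.log p * h p)) := by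
  rw [ell_eq]; rfl

theorem ell_mul (h : ℕ → ℝ) {a b : ℕ} (ha : a ≠ 0) (hb : b ≠ 0) :
    ell h (a * b) = ell h a + ell h b := by
  simp only [ell_eq_sum, Nat.factorization_mul ha hb]
  rw [Finsupp.sum_add_index']
  · intro p; simp
  · intro p b1 b2; push_cast; ring

theorem ell_nonneg {h : ℕ → ℝ} (hh : ∀ p, 0 ≤ h p) (j : ℕ) : 0 ≤ ell h j :=
  Finset.sum_nonneg fun _ _ => mul_nonneg vonMangoldt_nonneg (hh _)

theorem ell_dvd_le {h : ℕ → ℝ} (hh : ∀ p, 0 ≤ h p) {a b : ℕ} (hab : a ∣ b) (hb : b ≠ 0) :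
    ell h a ≤ ell h b :=
  Finset.sum_le_sum_of_subset_of_nonneg (Nat.divisors_subset_of_dvd hb hab)
    fun _ _ _ => mul_nonneg vonMangoldt_nonneg (hh _)

theorem ell_mono {h g : ℕ → ℝ} (hg : ∀ p, h p ≤ g p) (j : ℕ) : ell h j ≤ ell g j :=
  Finset.sum_le_sum fun _ _ => mul_le_mul_of_nonneg_left (hg _) vonMangoldt_nonneg

theorem ell_one (j : ℕ) : ell (fun _ => 1) j = Real.log j := by
  unfold ell; simp [vonMangoldt_sum]

theorem sum_swap (f : ℕ → ℝ) (n : ℕ) :
    ∑ j ∈ Ioc 0 n, ∑ d ∈ j.divisors, f d = ∑ d ∈ Ioc 0 n, f d * ((n / d : ℕ) : ℝ) := by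
  let F : ArithmeticFunction ℝ := ⟨fun d => if d = 0 then 0 else f d, by simp⟩
  have h1 := sum_Ioc_mul_zeta_eq_sum F n
  have h2 : ∑ d ∈ Ioc 0 n, f d * ((n / d : ℕ) : ℝ) = ∑ d ∈ Ioc 0 n, F d * ((n / d : ℕ) : ℝ) := by
    refine Finset.sum_congr rfl fun d hd => ?_
    have : d ≠ 0 := by rw [Finset.mem_Ioc] at hd; omega
    change f d * _ = (if d = 0 then 0 else f d) * _
    rw [if_neg this]
  rw [h2, ← h1]
  refine Finset.sum_congr rfl fun j _ => ?_
  rw [coe_mul_zeta_apply]
  refine Finset.sum_congr rfl fun d hd => ?_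
  have : d ≠ 0 := by have := Nat.pos_of_mem_divisors hd; omega
  change f d = (if d = 0 then 0 else f d)
  rw [if_neg this]

theorem ell_factorial (h : ℕ → ℝ) (n : ℕ) :
    ell h n.factorial = ∑ d ∈ Ioc 0 n, vonMangoldt d * h d.minFac * ((n / d : ℕ) : ℝ) := by
  rw [← sum_swap]
  induction n with
  | zero => simp [ell]
  | succ n ih =>
    rw [Nat.factorial_succ, ell_mul _ (by omega) (Nat.factorial_ne_zero n), ih,
      Finset.sum_Ioc_succ_top (Nat.zero_le n)]
    unfold ell
    ring

theorem log_factorial (n : ℕ) :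
    Real.log n.factorial = ∑ d ∈ Ioc 0 n, vonMangoldt d * ((n / d : ℕ) : ℝ) := by
  rw [← ell_one, ell_factorial]; simp

end FacPow
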