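import Pool.Agent.Helper929.FP.Base

open ArithmeticFunction Finset

namespace FacPow



theorem quart_prime {z p : ℕ} (hp : p.Prime) (h2 : p ≠ 2) (hd : p ∣ z ^ 4 + 1) : p % 8 = 1 := by
  haveI : Fact p.Prime := ⟨hp⟩
  have hp3 : 2 < p := lt_of_le_of_ne hp.two_le (Ne.symm h2)
  haveI : Fact (2 < p) := ⟨hp3⟩
  have h1 : ((z : ZMod p)) ^ 4 = -1 := by
    have h3 : ((z ^ 4 + 1 : ℕ) : ZMod p) = 0 := (ZMod.natCast_eq_zero_iff _ _).2 hd
    push_cast at h3
    exact eq_neg_of_add_eq_zero_left h3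
  have h4 : orderOf (z : ZMod p) = 2 ^ (2 + 1) := by
    haveI : Fact (Nat.Prime 2) := ⟨Nat.prime_two⟩
    apply orderOf_eq_prime_pow
    · norm_num
      rw [h1]
      exact ZMod.neg_one_ne_one
    · norm_num
      have : (z : ZMod p) ^ 8 = ((z : ZMod p) ^ 4) ^ 2 := by ring
      rw [this, h1]
      norm_num
  have hz : (z : ZMod p) ≠ 0 := by
    intro h
    rw [h] at h1
    norm_num at h1
  have h5 : orderOf (z : ZMod p) ∣ p - 1 := orderOf_dvd_of_pow_eq_one (ZMod.pow_card_sub_one_eq_one hz)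
  rw [h4] at h5
  obtain ⟨k, hk⟩ := h5
  norm_num at hk
  omega

theorem quart_two (z : ℕ) : (z ^ 4 + 1).factorization 2 ≤ 1 := by
  by_contra h
  push Not at h
  have h1 : 2 ^ 2 ∣ z ^ 4 + 1 :=
    (Nat.Prime.pow_dvd_iff_le_factorization Nat.prime_two (by positivity)).2 h
  have h2 : (z ^ 4 + 1) % 4 = 0 := Nat.mod_eq_zero_of_dvd (by simpa using h1)
  have h3 : z % 4 < 4 := Nat.mod_lt _ (by norm_num)
  rw [Nat.add_mod, Nat.pow_mod] at h2
  interval_cases z % 4 <;> simp at h2

/-- TARGET: an odd prime dividing z^4+1 is = 1 mod 8; 4 does not divide z^4+1. -/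
theorem quart_log_le {z n : ℕ} (hz : 2 ≤ z) (hG : (z ^ 4 + 1) ∣ n.factorial) :
    Real.log ((z ^ 4 + 1 : ℕ) : ℝ) ≤ Real.log 2 + ell (ind 8) n.factorial := by
  have hG0 : z ^ 4 + 1 ≠ 0 := by positivity
  have h1 : Real.log ((z ^ 4 + 1 : ℕ) : ℝ) ≤ Real.log 2 + ell (ind 8) (z ^ 4 + 1) := by
    rw [← ell_one, ell_eq, ell_eq]
    have hlog2 : 0 ≤ Real.log 2 := Real.log_nonneg (by norm_num)
    have h2 : ∀ p : ℕ, p ∈ (z ^ 4 + 1).primeFactors → (((z ^ 4 + 1).factorization p : ℕ) : ℝ) * (Real.log p * 1) ≤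
        (if p = 2 then Real.log 2 else 0) + (((z ^ 4 + 1).factorization p : ℕ) : ℝ) * (Real.log p * ind 8 p) := by
      intro p hp
      have hpp := Nat.prime_of_mem_primeFactors hp
      have hpd := Nat.dvd_of_mem_primeFactors hp
      by_cases h : p = 2
      · subst h
        rw [if_pos rfl]
        have h3 : ((z ^ 4 + 1).factorization 2 : ℝ) ≤ 1 := by exact_mod_cast quart_two z
        have h4 : ind 8 2 = 0 := by unfold ind; norm_num
        rw [h4]
        push_cast
        nlinarith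
      · rw [if_neg h]
        have h4 : ind 8 p = 1 := by
          unfold ind
          rw [if_pos (quart_prime hpp h hpd)]
        rw [h4, zero_add]
    refine (Finset.sum_le_sum h2).trans ?_
    rw [Finset.sum_add_distrib, Finset.sum_ite_eq']
    split_ifs
    · exact le_refl _
    · linarith
  have h5 : ell (ind 8) (z ^ 4 + 1) ≤ ell (ind 8) n.factorial := by
    apply ell_dvd_le _ hG (Nat.factorial_ne_zero n)
    intro p
    unfold ind
    split_ifs <;> norm_num
  linarith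

end FacPow
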