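import Pool.Agent.Helper929.FP.Base

open ArithmeticFunction Finset

namespace FacPow



theorem single_A (q N : ℕ) : ∑ j ∈ Ioc 0 N, Real.log ((q : ℝ) * j + 1)
    = ∑ d ∈ Ioc 0 (q * N + 1), vonMangoldt d *
        (((Ioc 0 N).filter (fun j => d ∣ q * j + 1)).card : ℝ) := by
  have h0 : ∀ j ∈ Ioc 0 N, Real.log ((q : ℝ) * j + 1)
      = ∑ d ∈ Ioc 0 (q * N + 1), if d ∣ q * j + 1 then vonMangoldt d else 0 := by
    intro j hj
    rw [Finset.mem_Ioc] at hj
    have h1 : Real.log ((q : ℝ) * j + 1) = ∑ d ∈ (q * j + 1).divisors, vonMangoldt d := by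
      rw [vonMangoldt_sum]
      push_cast
      rfl
    rw [h1, ← Finset.sum_filter]
    refine Finset.sum_congr ?_ fun _ _ => rfl
    ext d
    simp only [Nat.mem_divisors, Finset.mem_filter, Finset.mem_Ioc]
    constructor
    · rintro ⟨h, _⟩
      refine ⟨⟨Nat.pos_of_dvd_of_pos h (by omega), (Nat.le_of_dvd (by omega) h).trans ?_⟩, h⟩
      have := Nat.mul_le_mul_left q hj.2
      omega
    · rintro ⟨_, h⟩
      exact ⟨h, by omega⟩
  rw [Finset.sum_congr rfl h0, Finset.sum_comm]
  refine Finset.sum_congr rfl fun d _ => ?_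
  rw [← Finset.sum_filter, Finset.sum_const, nsmul_eq_mul, mul_comm]

theorem single_B (N : ℕ) : ∑ j ∈ Ioc 0 N, Real.log (j : ℝ)
    = ∑ d ∈ Ioc 0 N, vonMangoldt d * ((N / d : ℕ) : ℝ) := by
  rw [← sum_swap]
  refine Finset.sum_congr rfl fun j _ => ?_
  rw [vonMangoldt_sum]

theorem single_cnt {q d N : ℕ} (hc : Nat.Coprime q d) (hd : 1 < d) :
    N / d ≤ ((Ioc 0 N).filter (fun j => d ∣ q * j + 1)).card := by
  obtain ⟨m, hm⟩ := Nat.exists_mul_mod_eq_one_of_coprime hc hd
  set j0 := ((d - 1) * m) % d with hj0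
  have hj0d : j0 < d := Nat.mod_lt _ (by omega)
  have hdv : d ∣ q * j0 + 1 := by
    obtain ⟨A, hA⟩ : ∃ A, q * m = d * A + 1 :=
      ⟨q * m / d, by conv_lhs => rw [← Nat.div_add_mod (q * m) d, hm.2]⟩
    obtain ⟨B, hB⟩ : ∃ B, (d - 1) * m = d * B + j0 :=
      ⟨(d - 1) * m / d, by conv_lhs => rw [← Nat.div_add_mod ((d - 1) * m) d]⟩
    have e3 : q * j0 + 1 + d * (q * B) = d * (1 + (d - 1) * A) := by
      have a1 : q * j0 + 1 + d * (q * B) = q * (d * B + j0) + 1 := by ring
      rw [a1, ← hB]
      have a2 : q * ((d - 1) * m) = (d - 1) * (q * m) := by ring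
      rw [a2, hA]
      obtain ⟨d', rfl⟩ : ∃ d', d = d' + 1 := ⟨d - 1, by omega⟩
      simp only [Nat.add_sub_cancel]
      ring
    have h4 : d ∣ q * j0 + 1 + d * (q * B) := by
      rw [e3]
      exact Nat.dvd_mul_right _ _
    exact (Nat.dvd_add_left (Nat.dvd_mul_right _ _)).1 h4
  have hj0p : 0 < j0 := by
    rcases Nat.eq_zero_or_pos j0 with h | h
    · rw [h] at hdv
      simp at hdv
      omega
    · exact h
  have himg : (Finset.range (N / d)).image (fun t => j0 + d * t) ⊆
      (Ioc 0 N).filter (fun j => d ∣ q * j + 1) := by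
    intro x hx
    rw [Finset.mem_image] at hx
    obtain ⟨t, ht, rfl⟩ := hx
    rw [Finset.mem_range] at ht
    rw [Finset.mem_filter, Finset.mem_Ioc]
    refine ⟨⟨by positivity, ?_⟩, ?_⟩
    · have h1 : d * (N / d) ≤ N := Nat.mul_div_le N d
      have h2 : d * (t + 1) ≤ d * (N / d) := Nat.mul_le_mul_left d ht
      have h3 : d * (t + 1) = d * t + d := by ring
      omega
    · have : q * (j0 + d * t) + 1 = (q * j0 + 1) + d * (q * t) := by ring
      rw [this]
      exact Nat.dvd_add hdv (Nat.dvd_mul_right _ _)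
  have := Finset.card_le_card himg
  rw [Finset.card_image_of_injective, Finset.card_range] at this
  · exact this
  · intro a b hab
    have hab' : d * a = d * b := by simpa using hab
    exact Nat.eq_of_mul_eq_mul_left (by omega) hab'

theorem single_D {r : ℕ} (hr : r.Prime) (N : ℕ) :
    ell (fun p => if p = r then 1 else 0) N.factorial
      ≤ (N : ℝ) * (Real.log r / ((r : ℝ) - 1)) := by
  have hr1 : (1 : ℝ) < r := by exact_mod_cast hr.one_lt
  have hlog : 0 < Real.log r := Real.log_pos hr1
  have h1 : ell (fun p => if p = r then 1 else 0) N.factorial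
      ≤ (N.factorial.factorization r : ℝ) * Real.log r := by
    rw [ell_eq]
    have : ∀ p ∈ N.factorial.primeFactors, (N.factorial.factorization p : ℝ) *
        (Real.log p * if p = r then 1 else 0)
        = if p = r then (N.factorial.factorization r : ℝ) * Real.log r else 0 := by
      intro p _
      split_ifs with h
      · rw [h, mul_one]
      · simp
    rw [Finset.sum_congr rfl this, Finset.sum_ite_eq']
    split_ifs
    · exact le_rfl
    · positivity
  have h2 : ((r : ℝ) - 1) * (N.factorial.factorization r : ℝ) ≤ N := by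
    have : Fact r.Prime := ⟨hr⟩
    have h3 := sub_one_mul_padicValNat_factorial (p := r) N
    have h4 : N.factorial.factorization r = padicValNat r N.factorial :=
      Nat.factorization_def _ hr
    rw [← h4] at h3
    have h5 : (r - 1) * N.factorial.factorization r ≤ N := by
      rw [h3]
      exact Nat.sub_le _ _
    have h6 : ((r - 1 : ℕ) : ℝ) = (r : ℝ) - 1 := by
      rw [Nat.cast_sub hr.one_lt.le, Nat.cast_one]
    rw [← h6]
    exact_mod_cast h5
  refine h1.trans ?_
  have h7 : 0 < (r : ℝ) - 1 := by linarith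
  have h8 : (N : ℝ) * (Real.log r / ((r : ℝ) - 1)) = (N : ℝ) / ((r : ℝ) - 1) * Real.log r := by ring
  rw [h8]
  apply mul_le_mul_of_nonneg_right _ hlog.le
  rw [le_div_iff₀ h7]
  linarith

/-- TARGET -/
theorem single {q r s : ℕ} (hr : r.Prime) (hs : 1 ≤ s) (hq : q = r ^ s) (N : ℕ) :
    ∑ d ∈ (Ioc N (q * N + 1)).filter (fun d => d % q = 1), vonMangoldt d
      ≤ ∑ j ∈ Ioc 0 N, (Real.log ((q : ℝ) * j + 1) - Real.log j)
        + (N : ℝ) * (Real.log r / ((r : ℝ) - 1)) := by
  have hq1 : 1 < q := by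
    rw [hq]
    exact Nat.one_lt_pow (by omega) hr.one_lt
  have hA := single_A q N
  have hB := single_B N
  have hD := single_D hr N
  rw [ell_factorial] at hD
  rw [Finset.sum_sub_distrib, hA, hB,
    ← Finset.sum_Ioc_consecutive _ (Nat.zero_le N) (show N ≤ q * N + 1 by nlinarith)]
  have h1 : ∑ d ∈ Ioc 0 N, vonMangoldt d * ((N / d : ℕ) : ℝ)
      ≤ ∑ d ∈ Ioc 0 N, vonMangoldt d * (((Ioc 0 N).filter (fun j => d ∣ q * j + 1)).card : ℝ)
        + ∑ d ∈ Ioc 0 N, vonMangoldt d * (if d.minFac = r then 1 else 0) * ((N / d : ℕ) : ℝ) := by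
    rw [← Finset.sum_add_distrib]
    refine Finset.sum_le_sum fun d hd => ?_
    by_cases hL : vonMangoldt d = 0
    · simp [hL]
    have hpp : IsPrimePow d := by
      exact vonMangoldt_ne_zero_iff.1 hL
    have hLp : 0 ≤ vonMangoldt d := vonMangoldt_nonneg
    by_cases hm : d.minFac = r
    · rw [if_pos hm, mul_one]
      have : 0 ≤ vonMangoldt d *
          (((Ioc 0 N).filter (fun j => d ∣ q * j + 1)).card : ℝ) := by positivity
      linarith
    · rw [if_neg hm, mul_zero, zero_mul, add_zero]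
      refine mul_le_mul_of_nonneg_left ?_ hLp
      have hc : Nat.Coprime q d := by
        rw [hq]
        apply Nat.Coprime.pow_left
        rw [Nat.Prime.coprime_iff_not_dvd hr]
        intro hrd
        apply hm
        obtain ⟨p, k, hp, hk, rfl⟩ := hpp
        have hp' : p.Prime := hp.nat_prime
        rw [hp'.pow_minFac hk.ne']
        exact ((Nat.prime_dvd_prime_iff_eq hr hp').1 (hr.dvd_of_dvd_pow hrd)).symm
      exact_mod_cast single_cnt hc hpp.one_lt
  have h2 : ∑ d ∈ (Ioc N (q * N + 1)).filter (fun d => d % q = 1), vonMangoldt d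
      ≤ ∑ d ∈ Ioc N (q * N + 1), vonMangoldt d *
        (((Ioc 0 N).filter (fun j => d ∣ q * j + 1)).card : ℝ) := by
    rw [Finset.sum_filter]
    refine Finset.sum_le_sum fun d hd => ?_
    rw [Finset.mem_Ioc] at hd
    have hLp : 0 ≤ vonMangoldt d := vonMangoldt_nonneg
    split_ifs with hdq
    · by_cases hd1 : d = 1
      · subst hd1
        simp
      have hcard : 1 ≤ ((Ioc 0 N).filter (fun j => d ∣ q * j + 1)).card := by
        rw [Nat.one_le_iff_ne_zero, Finset.card_ne_zero]
        have e : q * (d / q) + 1 = d := by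
          conv_rhs => rw [← Nat.div_add_mod d q, hdq]
        refine ⟨d / q, ?_⟩
        rw [Finset.mem_filter, Finset.mem_Ioc, e]
        refine ⟨⟨?_, ?_⟩, dvd_rfl⟩
        · rcases Nat.eq_zero_or_pos (d / q) with h | h
          · rw [h] at e
            omega
          · exact h
        · have : q * (d / q) ≤ q * N := by omega
          exact Nat.le_of_mul_le_mul_left this (by omega)
      have : (1 : ℝ) ≤ (((Ioc 0 N).filter (fun j => d ∣ q * j + 1)).card : ℝ) := by
        exact_mod_cast hcard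
      nlinarith
    · positivity
  linarith

end FacPow
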