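import Pool.Agent.Helper929.FP.D

open ArithmeticFunction Finset

namespace FacPow





theorem term833 {q : ℕ} (hq : 2 ≤ q) (d : ℕ) :
    vonMangoldt d * ind q d.minFac ≤ if d % q = 1 then vonMangoldt d else 0 := by
  by_cases h : vonMangoldt d = 0
  · rw [h, zero_mul]
    split_ifs <;> exact le_rfl
  · have hp : IsPrimePow d := by
      by_contra hcon
      exact h (vonMangoldt_eq_zero_iff.mpr hcon)
    obtain ⟨p, k, hpp, hk, rfl⟩ := (isPrimePow_nat_iff d).mp hp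
    rw [hpp.pow_minFac hk.ne']
    unfold ind
    by_cases h1 : p % q = 1
    · have h2 : p ^ k % q = 1 := by
        rw [Nat.pow_mod, h1, one_pow]
        exact Nat.mod_eq_of_lt (by omega)
      rw [if_pos h1, if_pos h2, mul_one]
    · rw [if_neg h1, mul_zero]
      split_ifs
      · exact vonMangoldt_nonneg
      · exact le_rfl

theorem count833 {q : ℕ} (hq : 2 ≤ q) (n d : ℕ) (hd : d % q = 1) (hd1 : 1 < d) :
    (1 - 1 / (q : ℝ)) * ((n / d : ℕ) : ℝ) ≤
      ∑ t ∈ Ioc 0 (n / q), (if n / (q * t) < d ∧ d ≤ q * (n / (q * t)) + 1 then (1 : ℝ) else 0) := by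
  obtain ⟨i, hi⟩ : ∃ i, d = q * i + 1 := ⟨d / q, by
    have := Nat.div_add_mod d q
    omega⟩
  have hi1 : 1 ≤ i := by
    rcases Nat.eq_zero_or_pos i with h | h
    · rw [h] at hi; omega
    · exact h
  have hqd : q ≤ d := by
    rw [hi]
    nlinarith
  have hq0 : 0 < q := by omega
  have hd0 : 0 < d := by omega
  have hsub : Ioc (n / d / q) (n / d) ⊆
      (Ioc 0 (n / q)).filter (fun t => n / (q * t) < d ∧ d ≤ q * (n / (q * t)) + 1) := by
    intro t ht
    rw [mem_Ioc] at ht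
    obtain ⟨h1, h2⟩ := ht
    have ht0 : 0 < t := lt_of_le_of_lt (Nat.zero_le _) h1
    have h3 : t * d ≤ n := by
      rwa [Nat.le_div_iff_mul_le hd0] at h2
    have h4 : n < t * (d * q) := by
      rw [Nat.div_div_eq_div_mul, Nat.div_lt_iff_lt_mul (Nat.mul_pos hd0 hq0)] at h1
      exact h1
    rw [mem_filter, mem_Ioc]
    refine ⟨⟨ht0, ?_⟩, ?_, ?_⟩
    · rw [Nat.le_div_iff_mul_le hq0]
      exact (Nat.mul_le_mul_left t hqd).trans h3
    · rw [Nat.div_lt_iff_lt_mul (Nat.mul_pos hq0 ht0)]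
      calc n < t * (d * q) := h4
        _ = d * (q * t) := by ring
    · have h5 : i ≤ n / (q * t) := by
        rw [Nat.le_div_iff_mul_le (Nat.mul_pos hq0 ht0)]
        calc i * (q * t) ≤ t * d := by rw [hi]; nlinarith
          _ ≤ n := h3
      calc d = q * i + 1 := hi
        _ ≤ q * (n / (q * t)) + 1 := Nat.add_le_add_right (Nat.mul_le_mul_left q h5) 1
  have hcard := card_le_card hsub
  rw [Nat.card_Ioc] at hcard
  have h6 : ((n / d : ℕ) : ℝ) - ((n / d / q : ℕ) : ℝ) ≤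
      (((Ioc 0 (n / q)).filter (fun t => n / (q * t) < d ∧ d ≤ q * (n / (q * t)) + 1)).card : ℝ) := by
    rw [← Nat.cast_sub (Nat.div_le_self _ _)]
    exact_mod_cast hcard
  have h7 : ((n / d / q : ℕ) : ℝ) ≤ ((n / d : ℕ) : ℝ) / q := Nat.cast_div_le
  rw [sum_boole]
  calc (1 - 1 / (q : ℝ)) * ((n / d : ℕ) : ℝ) = ((n / d : ℕ) : ℝ) - ((n / d : ℕ) : ℝ) / q := by ring
    _ ≤ ((n / d : ℕ) : ℝ) - ((n / d / q : ℕ) : ℝ) := by linarith
    _ ≤ _ := h6

theorem logterm833 {q : ℕ} (hq : 2 ≤ q) (j : ℕ) (hj : 0 < j) :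
    Real.log ((q : ℝ) * j + 1) - Real.log j ≤ Real.log q + 1 / (q : ℝ) := by
  have hq0 : (0 : ℝ) < q := by exact_mod_cast (by omega : 0 < q)
  have hj0 : (0 : ℝ) < j := by exact_mod_cast hj
  have hj1 : (1 : ℝ) ≤ j := by exact_mod_cast hj
  have e : (q : ℝ) * j + 1 = j * (q * (1 + 1 / (q * j))) := by
    field_simp
  have hpos : (0 : ℝ) < 1 + 1 / (q * j) := by positivity
  rw [e, Real.log_mul hj0.ne' (by positivity), Real.log_mul hq0.ne' hpos.ne']
  have h1 : Real.log (1 + 1 / ((q : ℝ) * j)) ≤ 1 / ((q : ℝ) * j) := by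
    have := Real.log_le_sub_one_of_pos hpos
    linarith
  have h2 : 1 / ((q : ℝ) * j) ≤ 1 / q := by
    apply one_div_le_one_div_of_le hq0
    nlinarith
  linarith

/-- TARGET -/
theorem total {q r s : ℕ} (hr : r.Prime) (hs : 1 ≤ s) (hq : q = r ^ s) {n : ℕ} (hn : q ≤ n) :
    ell (ind q) n.factorial ≤ (n : ℝ) *
      ((Real.log q + 1 / (q : ℝ) + Real.log r / ((r : ℝ) - 1)) / ((q : ℝ) - 1)) *
      (1 + Real.log ((n : ℝ) / q)) := by
  have hr2 : 2 ≤ r := hr.two_le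
  have hq2 : 2 ≤ q := by
    rw [hq]
    calc 2 ≤ r := hr2
      _ = r ^ 1 := (pow_one r).symm
      _ ≤ r ^ s := Nat.pow_le_pow_right (by omega) hs
  have hq0 : (0 : ℝ) < q := by exact_mod_cast (by omega : 0 < q)
  have hq1 : (1 : ℝ) < q := by exact_mod_cast (by omega : 1 < q)
  have hr1 : (1 : ℝ) < r := by exact_mod_cast hr.one_lt
  obtain ⟨K, hK⟩ : ∃ K, K = Real.log q + 1 / (q : ℝ) + Real.log r / ((r : ℝ) - 1) := ⟨_, rfl⟩
  have hK0 : 0 ≤ K := by
    rw [hK]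
    have h1 : 0 ≤ Real.log q := Real.log_nonneg hq1.le
    have h2 : 0 ≤ Real.log r / ((r : ℝ) - 1) :=
      div_nonneg (Real.log_nonneg hr1.le) (by linarith)
    positivity
  rw [← hK]
  obtain ⟨T, hT⟩ : ∃ T, T = ∑ d ∈ Ioc 0 n, (if d % q = 1 then vonMangoldt d else 0) * ((n / d : ℕ) : ℝ) :=
    ⟨_, rfl⟩
  have hell : ell (ind q) n.factorial ≤ T := by
    rw [ell_factorial, hT]
    refine Finset.sum_le_sum fun d _ => ?_
    exact mul_le_mul_of_nonneg_right (term833 hq2 d) (Nat.cast_nonneg _)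
  -- the main estimate
  have hmain : (1 - 1 / (q : ℝ)) * T ≤ ∑ t ∈ Ioc 0 (n / q), K * ((n / (q * t) : ℕ) : ℝ) := by
    have h1 : (1 - 1 / (q : ℝ)) * T ≤ ∑ d ∈ Ioc 0 n, (if d % q = 1 then vonMangoldt d else 0) *
        ∑ t ∈ Ioc 0 (n / q), (if n / (q * t) < d ∧ d ≤ q * (n / (q * t)) + 1 then (1 : ℝ) else 0) := by
      rw [hT, Finset.mul_sum]
      refine Finset.sum_le_sum fun d hd => ?_
      rw [mem_Ioc] at hd
      by_cases hdq : d % q = 1
      · rw [if_pos hdq]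
        rcases Nat.lt_or_ge 1 d with h | h
        · calc (1 - 1 / (q : ℝ)) * (vonMangoldt d * ((n / d : ℕ) : ℝ))
              = vonMangoldt d * ((1 - 1 / (q : ℝ)) * ((n / d : ℕ) : ℝ)) := by ring
            _ ≤ _ := mul_le_mul_of_nonneg_left (count833 hq2 n d hdq h) vonMangoldt_nonneg
        · have : d = 1 := by omega
          rw [this, vonMangoldt_apply_one]
          simp
      · rw [if_neg hdq]
        simp
    have h2 : ∑ d ∈ Ioc 0 n, (if d % q = 1 then vonMangoldt d else 0) *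
        ∑ t ∈ Ioc 0 (n / q), (if n / (q * t) < d ∧ d ≤ q * (n / (q * t)) + 1 then (1 : ℝ) else 0)
        = ∑ t ∈ Ioc 0 (n / q), ∑ d ∈ Ioc 0 n, (if d % q = 1 then vonMangoldt d else 0) *
          (if n / (q * t) < d ∧ d ≤ q * (n / (q * t)) + 1 then (1 : ℝ) else 0) := by
      rw [Finset.sum_comm]
      refine Finset.sum_congr rfl fun d _ => ?_
      rw [Finset.mul_sum]
    rw [h2] at h1
    refine h1.trans (Finset.sum_le_sum fun t ht => ?_)
    have h3 : ∑ d ∈ Ioc 0 n, (if d % q = 1 then vonMangoldt d else 0) *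
          (if n / (q * t) < d ∧ d ≤ q * (n / (q * t)) + 1 then (1 : ℝ) else 0)
        ≤ ∑ d ∈ (Ioc (n / (q * t)) (q * (n / (q * t)) + 1)).filter (fun d => d % q = 1),
          vonMangoldt d := by
      have h4 : ∀ d, (if d % q = 1 then vonMangoldt d else 0) *
          (if n / (q * t) < d ∧ d ≤ q * (n / (q * t)) + 1 then (1 : ℝ) else 0)
          = if (d % q = 1 ∧ n / (q * t) < d ∧ d ≤ q * (n / (q * t)) + 1) then vonMangoldt d else 0 := by
        intro d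
        by_cases a1 : d % q = 1 <;>
          by_cases a2 : n / (q * t) < d ∧ d ≤ q * (n / (q * t)) + 1 <;>
          simp [a1, a2]
      rw [Finset.sum_congr rfl fun d _ => h4 d, ← Finset.sum_filter]
      refine Finset.sum_le_sum_of_subset_of_nonneg ?_ fun _ _ _ => vonMangoldt_nonneg
      intro d hd
      rw [mem_filter] at hd ⊢
      rw [mem_Ioc]
      exact ⟨⟨hd.2.2.1, hd.2.2.2⟩, hd.2.1⟩
    refine h3.trans ((single hr hs hq (n / (q * t))).trans ?_)
    have h5 : ∑ j ∈ Ioc 0 (n / (q * t)), (Real.log ((q : ℝ) * j + 1) - Real.log j)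
        ≤ ∑ j ∈ Ioc 0 (n / (q * t)), (Real.log q + 1 / (q : ℝ)) :=
      Finset.sum_le_sum fun j hj => logterm833 hq2 j (mem_Ioc.mp hj).1
    rw [Finset.sum_const, Nat.card_Ioc, nsmul_eq_mul, Nat.sub_zero] at h5
    rw [hK]
    calc _ ≤ ((n / (q * t) : ℕ) : ℝ) * (Real.log q + 1 / (q : ℝ))
          + ((n / (q * t) : ℕ) : ℝ) * (Real.log r / ((r : ℝ) - 1)) := by linarith
      _ = _ := by ring
  -- the harmonic sum
  have hM1 : 1 ≤ n / q := by
    rw [Nat.le_div_iff_mul_le (by omega)]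
    omega
  have hharm : ∑ t ∈ Ioc 0 (n / q), ((n / (q * t) : ℕ) : ℝ)
      ≤ (n : ℝ) / q * (1 + Real.log ((n : ℝ) / q)) := by
    have h1 : ∑ t ∈ Ioc 0 (n / q), ((n / (q * t) : ℕ) : ℝ)
        ≤ ∑ t ∈ Ioc 0 (n / q), (n : ℝ) / q * (t : ℝ)⁻¹ := by
      refine Finset.sum_le_sum fun t ht => ?_
      calc ((n / (q * t) : ℕ) : ℝ) ≤ (n : ℝ) / ((q * t : ℕ) : ℝ) := Nat.cast_div_le
        _ = (n : ℝ) / q * (t : ℝ)⁻¹ := by
            push_cast
            rw [div_mul_eq_div_div, div_eq_mul_inv (((n : ℝ) / q)) (t : ℝ)]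
    rw [← Finset.mul_sum] at h1
    have h2 : ∑ t ∈ Ioc 0 (n / q), (t : ℝ)⁻¹ = ((harmonic (n / q) : ℚ) : ℝ) := by
      rw [harmonic_eq_sum_Icc]
      push_cast
      rfl
    have h3 : ((harmonic (n / q) : ℚ) : ℝ) ≤ 1 + Real.log ((n / q : ℕ) : ℝ) :=
      harmonic_le_one_add_log _
    have h4 : Real.log ((n / q : ℕ) : ℝ) ≤ Real.log ((n : ℝ) / q) :=
      Real.log_le_log (by exact_mod_cast hM1) Nat.cast_div_le
    rw [h2] at h1
    refine h1.trans (mul_le_mul_of_nonneg_left (by linarith) (by positivity))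
  rw [← Finset.mul_sum] at hmain
  have hfin : (1 - 1 / (q : ℝ)) * T ≤ K * ((n : ℝ) / q * (1 + Real.log ((n : ℝ) / q))) :=
    hmain.trans (mul_le_mul_of_nonneg_left hharm hK0)
  refine hell.trans ?_
  have hqm : (0 : ℝ) < (q : ℝ) - 1 := by linarith
  have h8 : ((q : ℝ) - 1) * T ≤ K * ((n : ℝ) * (1 + Real.log ((n : ℝ) / q))) := by
    have h9 := mul_le_mul_of_nonneg_left hfin hq0.le
    calc ((q : ℝ) - 1) * T = q * ((1 - 1 / (q : ℝ)) * T) := by field_simp
      _ ≤ q * (K * ((n : ℝ) / q * (1 + Real.log ((n : ℝ) / q)))) := h9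
      _ = K * ((n : ℝ) * (1 + Real.log ((n : ℝ) / q))) := by field_simp
  calc T = ((q : ℝ) - 1) * T / ((q : ℝ) - 1) := by field_simp
    _ ≤ K * ((n : ℝ) * (1 + Real.log ((n : ℝ) / q))) / ((q : ℝ) - 1) := by gcongr
    _ = _ := by ring

end FacPow
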