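import Pool.Agent.Helper929.FP.Base

open ArithmeticFunction Finset

namespace FacPow



noncomputable def LL : ℝ := ∑' i : ℕ, (1 : ℝ) / ((3 * (i : ℝ) + 1) * (3 * (i : ℝ) + 2))
noncomputable def PP (k : ℕ) : ℝ := ∑ m ∈ Ioc 0 k, chi m / (m : ℝ)
noncomputable def SS (k : ℕ) : ℝ := ∑ m ∈ Ioc 0 k, chi m

/-- the terms of the series of `LL` -/
noncomputable def tt (i : ℕ) : ℝ := (1 : ℝ) / ((3 * (i : ℝ) + 1) * (3 * (i : ℝ) + 2))

/-- partial sums -/
noncomputable def TT (n : ℕ) : ℝ := ∑ i ∈ Finset.range n, tt i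

theorem tt_nonneg (i : ℕ) : 0 ≤ tt i := by unfold tt; positivity

theorem TT_up {i : ℕ} (hi : 1 ≤ i) (n : ℕ) :
    TT (i + n) ≤ TT i + 1 / (9 * (i : ℝ)) - 1 / (9 * ((i : ℝ) + n)) := by
  induction n with
  | zero => simp
  | succ n ih =>
    have h1 : TT (i + (n + 1)) = TT (i + n) + tt (i + n) := by
      unfold TT
      rw [← add_assoc, Finset.sum_range_succ]
    rw [h1]
    have hi' : (1 : ℝ) ≤ i := by exact_mod_cast hi
    have h2 : tt (i + n) ≤ 1 / (9 * ((i : ℝ) + n)) - 1 / (9 * ((i : ℝ) + (n + 1 : ℕ))) := by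
      unfold tt
      push_cast
      set a : ℝ := (i : ℝ) + n with ha
      have ha1 : 1 ≤ a := by
        have : (0 : ℝ) ≤ n := Nat.cast_nonneg n
        linarith
      have e1 : (i : ℝ) + (n + 1) = a + 1 := by rw [ha]; ring
      rw [e1, div_sub_div _ _ (by positivity) (by positivity), div_le_div_iff₀ (by positivity)
        (by positivity)]
      nlinarith
    linarith

theorem TT_lo {i : ℕ} (hi : 1 ≤ i) (n : ℕ) :
    TT i + 1 / (9 * (i : ℝ) + 3 / 4) - 1 / (9 * ((i : ℝ) + n) + 3 / 4) ≤ TT (i + n) := by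
  induction n with
  | zero => simp
  | succ n ih =>
    have h1 : TT (i + (n + 1)) = TT (i + n) + tt (i + n) := by
      unfold TT
      rw [← add_assoc, Finset.sum_range_succ]
    rw [h1]
    have hi' : (1 : ℝ) ≤ i := by exact_mod_cast hi
    have h2 : 1 / (9 * ((i : ℝ) + n) + 3 / 4) - 1 / (9 * ((i : ℝ) + (n + 1 : ℕ)) + 3 / 4) ≤
        tt (i + n) := by
      unfold tt
      push_cast
      set a : ℝ := (i : ℝ) + n with ha
      have ha1 : 1 ≤ a := by
        have : (0 : ℝ) ≤ n := Nat.cast_nonneg n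
        linarith
      have e1 : (i : ℝ) + (n + 1) = a + 1 := by rw [ha]; ring
      rw [e1, div_sub_div _ _ (by positivity) (by positivity), div_le_div_iff₀ (by positivity)
        (by positivity)]
      nlinarith
    linarith

theorem tt_summable : Summable tt := by
  refine summable_of_sum_range_le (c := TT 1 + 1 / 9) tt_nonneg ?_
  intro n
  rcases Nat.eq_zero_or_pos n with rfl | hn
  · simp only [Finset.range_zero, Finset.sum_empty]
    have : 0 ≤ TT 1 := Finset.sum_nonneg fun i _ => tt_nonneg i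
    positivity
  · obtain ⟨m, rfl⟩ : ∃ m, n = 1 + m := ⟨n - 1, by omega⟩
    have h1 := TT_up (le_refl 1) m
    have h2 : 0 ≤ 1 / (9 * (((1 : ℕ) : ℝ) + m)) := by positivity
    have h3 : 1 / (9 * ((1 : ℕ) : ℝ)) = (1 : ℝ) / 9 := by norm_num
    rw [h3] at h1
    show TT (1 + m) ≤ _
    linarith

theorem TT_tendsto : Filter.Tendsto TT Filter.atTop (nhds LL) := tt_summable.hasSum.tendsto_sum_nat

theorem LL_up {i : ℕ} (hi : 1 ≤ i) : LL - TT i ≤ 1 / (9 * (i : ℝ)) := by
  have h1 : Filter.Tendsto (fun n => TT (i + n)) Filter.atTop (nhds LL) := by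
    refine TT_tendsto.comp ?_
    exact Filter.tendsto_atTop_mono (fun n => Nat.le_add_left n i) Filter.tendsto_id
  have h2 : LL ≤ TT i + 1 / (9 * (i : ℝ)) := by
    refine le_of_tendsto' h1 fun n => ?_
    have h3 := TT_up hi n
    have h4 : 0 ≤ 1 / (9 * ((i : ℝ) + n)) := by positivity
    linarith
  linarith

theorem LL_low {i : ℕ} (hi : 1 ≤ i) : 1 / (9 * (i : ℝ) + 3 / 4) ≤ LL - TT i := by
  have h1 : Filter.Tendsto (fun n => TT (i + n)) Filter.atTop (nhds LL) := by
    refine TT_tendsto.comp ?_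
    exact Filter.tendsto_atTop_mono (fun n => Nat.le_add_left n i) Filter.tendsto_id
  have h2 : Filter.Tendsto (fun n : ℕ => TT i + 1 / (9 * (i : ℝ) + 3 / 4) -
      1 / (9 * ((i : ℝ) + n) + 3 / 4)) Filter.atTop
      (nhds (TT i + 1 / (9 * (i : ℝ) + 3 / 4) - 0)) := by
    refine tendsto_const_nhds.sub ?_
    simp only [one_div]
    refine tendsto_inv_atTop_zero.comp ?_
    refine Filter.tendsto_atTop_mono (fun n : ℕ => ?_) tendsto_natCast_atTop_atTop
    have h3 : (0 : ℝ) ≤ i := Nat.cast_nonneg i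
    have h4 : (0 : ℝ) ≤ n := Nat.cast_nonneg n
    show (n : ℝ) ≤ _
    linarith
  have h3 := le_of_tendsto_of_tendsto' h2 h1 (fun n => TT_lo hi n)
  linarith

theorem TT_ten : TT 10 = ∑ i ∈ Finset.range 10, (1 : ℝ) / ((3 * (i : ℝ) + 1) * (3 * (i : ℝ) + 2)) :=
  rfl

/-- TARGETS (three) -/
theorem LL_lo : (6045 : ℝ) / 10000 ≤ LL := by
  have h1 := LL_low (i := 10) (by norm_num)
  have h2 : (6045 : ℝ) / 10000 ≤ TT 10 + 1 / (9 * ((10 : ℕ) : ℝ) + 3 / 4) := by
    rw [TT_ten]
    simp only [Finset.sum_range_succ, Finset.sum_range_zero]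
    norm_num
  linarith

theorem LL_hi : LL ≤ (6047 : ℝ) / 10000 := by
  have h1 := LL_up (i := 10) (by norm_num)
  have h2 : TT 10 + 1 / (9 * ((10 : ℕ) : ℝ)) ≤ (6047 : ℝ) / 10000 := by
    rw [TT_ten]
    simp only [Finset.sum_range_succ, Finset.sum_range_zero]
    norm_num
  linarith

theorem PP_SS (i : ℕ) : PP (3 * i) = TT i ∧ SS (3 * i) = 0 ∧
    PP (3 * i + 1) = TT i + 1 / (3 * (i : ℝ) + 1) ∧ SS (3 * i + 1) = 1 ∧
    PP (3 * i + 2) = TT (i + 1) ∧ SS (3 * i + 2) = 0 := by
  have step1 : ∀ i : ℕ, PP (3 * i + 1) = PP (3 * i) + 1 / (3 * (i : ℝ) + 1) := by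
    intro i
    unfold PP
    rw [Finset.sum_Ioc_succ_top (Nat.zero_le _)]
    have : chi (3 * i + 1) = 1 := by
      unfold chi
      rw [if_pos (by omega)]
    rw [this]
    push_cast
    rfl
  have step1' : ∀ i : ℕ, SS (3 * i + 1) = SS (3 * i) + 1 := by
    intro i
    unfold SS
    rw [Finset.sum_Ioc_succ_top (Nat.zero_le _)]
    have : chi (3 * i + 1) = 1 := by
      unfold chi
      rw [if_pos (by omega)]
    rw [this]
  have step2 : ∀ i : ℕ, PP (3 * i + 2) = PP (3 * i) + tt i := by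
    intro i
    have h0 : PP (3 * i + 2) = PP (3 * i + 1) + chi (3 * i + 2) / ((3 * i + 2 : ℕ) : ℝ) := by
      unfold PP
      exact Finset.sum_Ioc_succ_top (Nat.zero_le _) _
    have : chi (3 * i + 2) = -1 := by
      unfold chi
      rw [if_neg (by omega), if_pos (by omega)]
    rw [h0, this, step1]
    unfold tt
    push_cast
    field_simp
    ring
  have step2' : ∀ i : ℕ, SS (3 * i + 2) = SS (3 * i) := by
    intro i
    have h0 : SS (3 * i + 2) = SS (3 * i + 1) + chi (3 * i + 2) := by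
      unfold SS
      exact Finset.sum_Ioc_succ_top (Nat.zero_le _) _
    have : chi (3 * i + 2) = -1 := by
      unfold chi
      rw [if_neg (by omega), if_pos (by omega)]
    rw [h0, this, step1']
    ring
  have step3 : ∀ i : ℕ, PP (3 * (i + 1)) = PP (3 * i + 2) := by
    intro i
    have h0 : PP (3 * i + 3) = PP (3 * i + 2) + chi (3 * i + 3) / ((3 * i + 3 : ℕ) : ℝ) := by
      unfold PP
      exact Finset.sum_Ioc_succ_top (Nat.zero_le _) _
    have : chi (3 * i + 3) = 0 := by
      unfold chi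
      rw [if_neg (by omega), if_neg (by omega)]
    rw [show 3 * (i + 1) = 3 * i + 3 by ring, h0, this, zero_div, add_zero]
  have step3' : ∀ i : ℕ, SS (3 * (i + 1)) = SS (3 * i + 2) := by
    intro i
    have h0 : SS (3 * i + 3) = SS (3 * i + 2) + chi (3 * i + 3) := by
      unfold SS
      exact Finset.sum_Ioc_succ_top (Nat.zero_le _) _
    have : chi (3 * i + 3) = 0 := by
      unfold chi
      rw [if_neg (by omega), if_neg (by omega)]
    rw [show 3 * (i + 1) = 3 * i + 3 by ring, h0, this, add_zero]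
  have hT : ∀ i : ℕ, PP (3 * i) = TT i := by
    intro i
    induction i with
    | zero => simp [PP, TT]
    | succ i ih =>
      rw [step3, step2, ih]
      unfold TT
      rw [Finset.sum_range_succ]
  have hS : ∀ i : ℕ, SS (3 * i) = 0 := by
    intro i
    induction i with
    | zero => simp [SS]
    | succ i ih =>
      rw [step3', step2', ih]
  refine ⟨hT i, hS i, ?_, ?_, ?_, ?_⟩
  · rw [step1, hT]
  · rw [step1', hS, zero_add]
  · rw [← step3, hT]
  · rw [step2', hS]

theorem TT_nonneg (i : ℕ) : 0 ≤ TT i := Finset.sum_nonneg fun i _ => tt_nonneg i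

theorem kernel_bound {k : ℕ} (hk : 1 ≤ k) {y : ℝ} (h1 : (k : ℝ) ≤ y) (h2 : y ≤ (k : ℝ) + 1) :
    |y * PP k - 9 / 10 * SS k - LL * k| ≤ 835 / 1000 * LL := by
  have hlo := LL_lo
  have hhi := LL_hi
  obtain ⟨i, hi⟩ : ∃ i, k = 3 * i ∨ k = 3 * i + 1 ∨ k = 3 * i + 2 := ⟨k / 3, by omega⟩
  obtain ⟨p1, s1, p2, s2, p3, s3⟩ := PP_SS i
  rcases hi with rfl | rfl | rfl
  · -- k = 3 i
    have hi1 : 1 ≤ i := by omega
    have hi' : (1 : ℝ) ≤ i := by exact_mod_cast hi1
    have hU := LL_up hi1
    have hL := LL_low hi1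
    have hT := TT_nonneg i
    rw [p1, s1]
    push_cast at h1 h2 ⊢
    set u : ℝ := y - 3 * i with hu
    set R : ℝ := LL - TT i with hR
    have hu0 : 0 ≤ u := by linarith
    have hu1 : u ≤ 1 := by linarith
    have e1 : y * TT i - 9 / 10 * 0 - LL * (3 * i) = u * TT i - 3 * i * R := by
      rw [hu, hR]; ring
    rw [e1, abs_le]
    have h3 : 3 * (i : ℝ) * R ≤ 1 / 3 := by
      calc 3 * (i : ℝ) * R ≤ 3 * (i : ℝ) * (1 / (9 * (i : ℝ))) :=
            mul_le_mul_of_nonneg_left hU (by positivity)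
        _ = 1 / 3 := by field_simp; norm_num
    have h4 : 1 / 3 ≤ (3 * (i : ℝ) + 1) * R := by
      calc 1 / 3 ≤ (3 * (i : ℝ) + 1) * (1 / (9 * (i : ℝ) + 3 / 4)) := by
            rw [mul_one_div, div_le_div_iff₀ (by norm_num) (by positivity)]
            linarith
        _ ≤ _ := mul_le_mul_of_nonneg_left hL (by positivity)
    have h5 : 0 ≤ u * TT i := mul_nonneg hu0 hT
    have h6 : u * TT i ≤ TT i := by nlinarith
    constructor
    · linarith
    · have : TT i = LL - R := by rw [hR]; ring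
      linarith
  · -- k = 3 i + 1
    rcases Nat.eq_zero_or_pos i with rfl | hi1
    · rw [p2, s2]
      have : TT 0 = 0 := by simp [TT]
      rw [this]
      push_cast at h1 h2 ⊢
      rw [abs_le]
      constructor
      · norm_num
        norm_num at h1 h2
        linarith
      · norm_num
        norm_num at h1 h2
        linarith
    have hi' : (1 : ℝ) ≤ i := by exact_mod_cast hi1
    have hU := LL_up hi1
    have hL := LL_low hi1
    have hT := TT_nonneg i
    rw [p2, s2]
    push_cast at h1 h2 ⊢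
    set u : ℝ := y - (3 * i + 1) with hu
    set R : ℝ := LL - TT i with hR
    set A : ℝ := 1 / (3 * (i : ℝ) + 1) with hA
    have hA0 : 0 ≤ A := by positivity
    have hAk : (3 * (i : ℝ) + 1) * A = 1 := by
      rw [hA]; field_simp
    have hu0 : 0 ≤ u := by linarith
    have hu1 : u ≤ 1 := by linarith
    have hTR : TT i = LL - R := by rw [hR]; ring
    have e1 : y * (TT i + A) - 9 / 10 * 1 - LL * (3 * i + 1) =
        u * (TT i + A) - (3 * i + 1) * R + 1 / 10 := by
      have hy : y = u + (3 * i + 1) := by rw [hu]; ring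
      rw [hy, hR]
      linear_combination hAk
    rw [e1, abs_le]
    have h3 : (3 * (i : ℝ) + 1) * R ≤ 4 / 9 := by
      calc (3 * (i : ℝ) + 1) * R ≤ (3 * (i : ℝ) + 1) * (1 / (9 * (i : ℝ))) :=
            mul_le_mul_of_nonneg_left hU (by positivity)
        _ ≤ 4 / 9 := by
            rw [mul_one_div, div_le_div_iff₀ (by positivity) (by norm_num)]
            linarith
    have h4 : A + 1 / 4 ≤ (3 * (i : ℝ) + 2) * R := by
      calc A + 1 / 4 ≤ (3 * (i : ℝ) + 2) * (1 / (9 * (i : ℝ) + 3 / 4)) := by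
            rw [mul_one_div, hA, div_add_div _ _ (by positivity) (by norm_num),
              div_le_div_iff₀ (by positivity) (by positivity)]
            nlinarith
        _ ≤ _ := mul_le_mul_of_nonneg_left hL (by positivity)
    have h5 : 0 ≤ u * (TT i + A) := mul_nonneg hu0 (by positivity)
    have h6 : u * (TT i + A) ≤ TT i + A := by
      have : 0 ≤ TT i + A := by positivity
      nlinarith
    constructor
    · linarith
    · linarith
  · -- k = 3 i + 2
    have hi1 : 1 ≤ i + 1 := by omega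
    have hi' : (0 : ℝ) ≤ i := Nat.cast_nonneg i
    have hU := LL_up hi1
    have hL := LL_low hi1
    have hT := TT_nonneg (i + 1)
    rw [p3, s3]
    push_cast at h1 h2 hU hL ⊢
    set u : ℝ := y - (3 * i + 2) with hu
    set R : ℝ := LL - TT (i + 1) with hR
    have hu0 : 0 ≤ u := by linarith
    have hu1 : u ≤ 1 := by linarith
    have hTR : TT (i + 1) = LL - R := by rw [hR]; ring
    have e1 : y * TT (i + 1) - 9 / 10 * 0 - LL * (3 * i + 2) =
        u * TT (i + 1) - (3 * i + 2) * R := by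
      rw [hu, hR]; ring
    rw [e1, abs_le]
    have h3 : (3 * (i : ℝ) + 2) * R ≤ 1 / 3 := by
      calc (3 * (i : ℝ) + 2) * R ≤ (3 * (i : ℝ) + 2) * (1 / (9 * ((i : ℝ) + 1))) :=
            mul_le_mul_of_nonneg_left hU (by positivity)
        _ ≤ 1 / 3 := by
            rw [mul_one_div, div_le_div_iff₀ (by positivity) (by norm_num)]
            linarith
    have h4 : 3 / 10 ≤ (3 * (i : ℝ) + 3) * R := by
      calc 3 / 10 ≤ (3 * (i : ℝ) + 3) * (1 / (9 * ((i : ℝ) + 1) + 3 / 4)) := by
            rw [mul_one_div, div_le_div_iff₀ (by norm_num) (by positivity)]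
            linarith
        _ ≤ _ := mul_le_mul_of_nonneg_left hL (by positivity)
    have h5 : 0 ≤ u * TT (i + 1) := mul_nonneg hu0 hT
    have h6 : u * TT (i + 1) ≤ TT (i + 1) := by nlinarith
    constructor
    · linarith
    · linarith

end FacPow
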