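import Pool.Agent.Helper929.FP.Base

open ArithmeticFunction Finset

namespace FacPow



/-- primes not congruent to 1 modulo 3 -/
def smPs : List ℕ :=
  [2, 3, 5, 11, 17, 23, 29, 41, 47, 53, 59, 71, 83, 89, 101, 107, 113, 131, 137, 149, 167, 173,
   179, 191, 197, 227, 233, 239, 251, 257, 263, 269, 281, 293, 311, 317, 347, 353, 359, 383, 389,
   401, 419, 431, 443, 449, 461, 467, 479, 491, 503, 509, 521, 557, 563, 569, 587, 593, 599, 617,
   641, 647, 653, 659, 677, 683, 701, 719, 743, 761, 773, 797, 809, 821, 827, 839, 857, 863, 881,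
   887, 911, 929, 941, 947, 953, 971, 977, 983]

theorem smPs_prime : ∀ p ∈ smPs, p.Prime ∧ p % 3 ≠ 1 := by
  unfold smPs
  simp only [List.forall_mem_cons, List.not_mem_nil, false_imp_iff, implies_true]
  norm_num

theorem smPs_nodup : smPs.Nodup := by
  unfold smPs
  decide +kernel

/-- exponent of `p` in `a!` -/
def smLeg : ℕ → ℕ → ℕ → ℕ
  | 0, _, _ => 0
  | (k + 1), p, a => a / p + smLeg k p (a / p)

def smProd (a : ℕ) : ℕ := (smPs.map (fun p => p ^ smLeg 11 p a)).prod

theorem smLeg_eq (k p a : ℕ) : smLeg k p a = ∑ i ∈ range k, a / p ^ (i + 1) := by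
  induction k generalizing a with
  | zero => simp [smLeg]
  | succ k ih =>
    rw [Finset.sum_range_succ', smLeg, ih, add_comm]
    congr 1
    · refine Finset.sum_congr rfl fun i _ => ?_
      rw [Nat.div_div_eq_div_mul, pow_succ' p (i + 1)]
    · simp

theorem smLeg_le {p : ℕ} (hp : p.Prime) (k a : ℕ) :
    smLeg k p a ≤ a.factorial.factorization p := by
  rw [Nat.factorization_factorial hp (b := k + Nat.log p a + 1) (by omega), smLeg_eq,
    Finset.sum_Ico_eq_sum_range]
  have e : ∀ i, a / p ^ (1 + i) = a / p ^ (i + 1) := fun i => by rw [add_comm]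
  simp only [e]
  apply Finset.sum_le_sum_of_subset
  intro i hi
  rw [Finset.mem_range] at hi ⊢
  omega

theorem smProd_le (a : ℕ) :
    Real.log (smProd a) ≤ ell (fun p => 1 - ind 3 p) a.factorial := by
  have hnn : ∀ p, 0 ≤ 1 - ind 3 p := by
    intro p; unfold ind; split_ifs <;> norm_num
  have e1 : smProd a = ∏ p ∈ smPs.toFinset, p ^ smLeg 11 p a := by
    rw [List.prod_toFinset _ smPs_nodup]; rfl
  rw [e1, Nat.cast_prod, Real.log_prod]
  · rw [ell_eq]
    have h1 : ∑ p ∈ smPs.toFinset, Real.log ((p ^ smLeg 11 p a : ℕ) : ℝ) ≤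
        ∑ p ∈ smPs.toFinset, (a.factorial.factorization p : ℝ) *
          (Real.log p * (1 - ind 3 p)) := by
      apply Finset.sum_le_sum
      intro p hp
      have hp' := smPs_prime p (List.mem_toFinset.1 hp)
      have h2 : ind 3 p = 0 := by unfold ind; rw [if_neg hp'.2]
      rw [h2, sub_zero, mul_one, Nat.cast_pow, Real.log_pow]
      apply mul_le_mul_of_nonneg_right
      · exact_mod_cast smLeg_le hp'.1 11 a
      · exact Real.log_natCast_nonneg p
    refine h1.trans ?_
    have h3 : ∑ p ∈ smPs.toFinset, (a.factorial.factorization p : ℝ) *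
          (Real.log p * (1 - ind 3 p)) =
        ∑ p ∈ smPs.toFinset.filter (fun p => p ∈ a.factorial.primeFactors),
          (a.factorial.factorization p : ℝ) * (Real.log p * (1 - ind 3 p)) := by
      rw [Finset.sum_filter]
      refine Finset.sum_congr rfl fun p _ => ?_
      split_ifs with h
      · rfl
      · have : a.factorial.factorization p = 0 := by
          rw [← Nat.support_factorization] at h
          exact Finsupp.notMem_support_iff.1 h
        rw [this]; simp
    rw [h3]
    apply Finset.sum_le_sum_of_subset_of_nonneg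
    · intro p hp
      exact (Finset.mem_filter.1 hp).2
    · intro p _ _
      exact mul_nonneg (Nat.cast_nonneg _) (mul_nonneg (Real.log_natCast_nonneg p) (hnn p))
  · intro p hp
    have hp' := smPs_prime p (List.mem_toFinset.1 hp)
    have : 0 < p ^ smLeg 11 p a := pow_pos hp'.1.pos _
    exact_mod_cast this.ne'

theorem smStep {n : ℕ} (a b : ℕ) (han : a ≤ n) (hnb : n < b)
    (h : 9 * (b - 1).factorial ≤ smProd a ^ 2) :
    2 * ell (ind 3) n.factorial + Real.log 9 ≤ Real.log n.factorial := by
  have hnn : ∀ p, 0 ≤ 1 - ind 3 p := by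
    intro p; unfold ind; split_ifs <;> norm_num
  have h1 : Real.log n.factorial = ell (ind 3) n.factorial +
      ell (fun p => 1 - ind 3 p) n.factorial := by
    rw [← ell_one]
    unfold ell
    rw [← Finset.sum_add_distrib]
    refine Finset.sum_congr rfl fun d _ => ?_
    ring
  have h2 : ell (fun p => 1 - ind 3 p) a.factorial ≤ ell (fun p => 1 - ind 3 p) n.factorial :=
    ell_dvd_le hnn (Nat.factorial_dvd_factorial han) (Nat.factorial_ne_zero n)
  have h3 := smProd_le a
  have h4 : 9 * n.factorial ≤ smProd a ^ 2 :=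
    (Nat.mul_le_mul_left 9 (Nat.factorial_le (by omega))).trans h
  have h5 : Real.log 9 + Real.log n.factorial ≤ 2 * Real.log (smProd a) := by
    have hf : (0 : ℝ) < (n.factorial : ℝ) := by exact_mod_cast Nat.factorial_pos n
    rw [← Real.log_mul (by norm_num) hf.ne']
    have h6 : ((9 : ℝ) * (n.factorial : ℝ)) ≤ (smProd a : ℝ) ^ 2 := by exact_mod_cast h4
    have h7 := Real.log_le_log (by positivity) h6
    rw [Real.log_pow] at h7
    exact_mod_cast h7
  linarith

theorem smC_4 : 9 * (5 - 1).factorial ≤ smProd 4 ^ 2 := by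
  decide +kernel

theorem smC_5 : 9 * (7 - 1).factorial ≤ smProd 5 ^ 2 := by
  decide +kernel

theorem smC_7 : 9 * (9 - 1).factorial ≤ smProd 7 ^ 2 := by
  decide +kernel

theorem smC_9 : 9 * (12 - 1).factorial ≤ smProd 9 ^ 2 := by
  decide +kernel

theorem smC_12 : 9 * (18 - 1).factorial ≤ smProd 12 ^ 2 := by
  decide +kernel

theorem smC_18 : 9 * (25 - 1).factorial ≤ smProd 18 ^ 2 := by
  decide +kernel

theorem smC_25 : 9 * (35 - 1).factorial ≤ smProd 25 ^ 2 := by
  decide +kernel

theorem smC_35 : 9 * (48 - 1).factorial ≤ smProd 35 ^ 2 := by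
  decide +kernel

theorem smC_48 : 9 * (65 - 1).factorial ≤ smProd 48 ^ 2 := by
  decide +kernel

theorem smC_65 : 9 * (86 - 1).factorial ≤ smProd 65 ^ 2 := by
  decide +kernel

theorem smC_86 : 9 * (112 - 1).factorial ≤ smProd 86 ^ 2 := by
  decide +kernel

theorem smC_112 : 9 * (145 - 1).factorial ≤ smProd 112 ^ 2 := by
  decide +kernel

theorem smC_145 : 9 * (189 - 1).factorial ≤ smProd 145 ^ 2 := by
  decide +kernel

theorem smC_189 : 9 * (242 - 1).factorial ≤ smProd 189 ^ 2 := by
  decide +kernel

theorem smC_242 : 9 * (307 - 1).factorial ≤ smProd 242 ^ 2 := by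
  decide +kernel

theorem smC_307 : 9 * (388 - 1).factorial ≤ smProd 307 ^ 2 := by
  decide +kernel

theorem smC_388 : 9 * (484 - 1).factorial ≤ smProd 388 ^ 2 := by
  decide +kernel

theorem smC_484 : 9 * (602 - 1).factorial ≤ smProd 484 ^ 2 := by
  decide +kernel

theorem smC_602 : 9 * (750 - 1).factorial ≤ smProd 602 ^ 2 := by
  decide +kernel

theorem smC_750 : 9 * (923 - 1).factorial ≤ smProd 750 ^ 2 := by
  decide +kernel

theorem smC_923 : 9 * (1131 - 1).factorial ≤ smProd 923 ^ 2 := by
  decide +kernel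

theorem smC_1131 : 9 * (1362 - 1).factorial ≤ smProd 1131 ^ 2 := by
  decide +kernel

theorem smC_1362 : 9 * (1610 - 1).factorial ≤ smProd 1362 ^ 2 := by
  decide +kernel

theorem smC_1610 : 9 * (1870 - 1).factorial ≤ smProd 1610 ^ 2 := by
  decide +kernel

theorem smC_1870 : 9 * (2000 - 1).factorial ≤ smProd 1870 ^ 2 := by
  decide +kernel

/-- TARGET -/
theorem small {n : ℕ} (h1 : 4 ≤ n) (h2 : n < 2000) :
    2 * ell (ind 3) n.factorial + Real.log 9 ≤ Real.log n.factorial := by
  rcases lt_or_ge n 5 with g5 | g5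
  · exact smStep 4 5 (by omega) g5 smC_4
  rcases lt_or_ge n 7 with g7 | g7
  · exact smStep 5 7 (by omega) g7 smC_5
  rcases lt_or_ge n 9 with g9 | g9
  · exact smStep 7 9 (by omega) g9 smC_7
  rcases lt_or_ge n 12 with g12 | g12
  · exact smStep 9 12 (by omega) g12 smC_9
  rcases lt_or_ge n 18 with g18 | g18
  · exact smStep 12 18 (by omega) g18 smC_12
  rcases lt_or_ge n 25 with g25 | g25
  · exact smStep 18 25 (by omega) g25 smC_18
  rcases lt_or_ge n 35 with g35 | g35
  · exact smStep 25 35 (by omega) g35 smC_25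
  rcases lt_or_ge n 48 with g48 | g48
  · exact smStep 35 48 (by omega) g48 smC_35
  rcases lt_or_ge n 65 with g65 | g65
  · exact smStep 48 65 (by omega) g65 smC_48
  rcases lt_or_ge n 86 with g86 | g86
  · exact smStep 65 86 (by omega) g86 smC_65
  rcases lt_or_ge n 112 with g112 | g112
  · exact smStep 86 112 (by omega) g112 smC_86
  rcases lt_or_ge n 145 with g145 | g145
  · exact smStep 112 145 (by omega) g145 smC_112
  rcases lt_or_ge n 189 with g189 | g189
  · exact smStep 145 189 (by omega) g189 smC_145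
  rcases lt_or_ge n 242 with g242 | g242
  · exact smStep 189 242 (by omega) g242 smC_189
  rcases lt_or_ge n 307 with g307 | g307
  · exact smStep 242 307 (by omega) g307 smC_242
  rcases lt_or_ge n 388 with g388 | g388
  · exact smStep 307 388 (by omega) g388 smC_307
  rcases lt_or_ge n 484 with g484 | g484
  · exact smStep 388 484 (by omega) g484 smC_388
  rcases lt_or_ge n 602 with g602 | g602
  · exact smStep 484 602 (by omega) g602 smC_484
  rcases lt_or_ge n 750 with g750 | g750
  · exact smStep 602 750 (by omega) g750 smC_602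
  rcases lt_or_ge n 923 with g923 | g923
  · exact smStep 750 923 (by omega) g923 smC_750
  rcases lt_or_ge n 1131 with g1131 | g1131
  · exact smStep 923 1131 (by omega) g1131 smC_923
  rcases lt_or_ge n 1362 with g1362 | g1362
  · exact smStep 1131 1362 (by omega) g1362 smC_1131
  rcases lt_or_ge n 1610 with g1610 | g1610
  · exact smStep 1362 1610 (by omega) g1610 smC_1362
  rcases lt_or_ge n 1870 with g1870 | g1870
  · exact smStep 1610 1870 (by omega) g1870 smC_1610
  exact smStep 1870 2000 (by omega) h2 smC_1870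

end FacPow
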