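import Pool.Agent.Helper929.FP.J
import Pool.Agent.Helper929.FP.E
import Pool.Agent.Helper929.FP.B
import Pool.Agent.Helper929.FP.C
import Pool.Agent.Helper929.FP.K

open ArithmeticFunction Finset

namespace FacPow

theorem ell_ind_zero {q n : ℕ} (h : ∀ p : ℕ, p.Prime → p ≤ n → p % q ≠ 1) :
    ell (ind q) n.factorial = 0 := by
  rw [ell_eq]
  apply Finset.sum_eq_zero
  intro p hp
  have hpp := Nat.prime_of_mem_primeFactors hp
  have hpn : p ≤ n := (hpp.dvd_factorial).1 (Nat.dvd_of_mem_primeFactors hp)
  simp [ind, h p hpp hpn]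

theorem log_fact_lower {n : ℕ} (hn : n ≠ 0) :
    (n : ℝ) * Real.log n - n ≤ Real.log n.factorial := by
  have h := Stirling.le_log_factorial_stirling hn
  have h1 : 0 ≤ Real.log n := Real.log_natCast_nonneg n
  have h2 : 0 ≤ Real.log (2 * Real.pi) := by
    apply Real.log_nonneg
    have := Real.pi_gt_three
    linarith
  linarith

theorem num_ge7 {q n : ℕ} (hq7 : 7 ≤ q) (hq : q ≤ n) (hn : 15 ≤ n) {T : ℝ}
    (hT : T ≤ (n : ℝ) *
      ((Real.log q + 1 / (q : ℝ) + Real.log q / ((q : ℝ) - 1)) / ((q : ℝ) - 1)) *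
      (1 + Real.log ((n : ℝ) / q))) :
    ((q : ℝ) + 1) / ((q : ℝ) - 1) * (Real.log q + T) ≤ Real.log n.factorial := by
  have hQ : (7 : ℝ) ≤ q := by exact_mod_cast hq7
  have hX : (15 : ℝ) ≤ n := by exact_mod_cast hn
  have hXQ : (q : ℝ) ≤ n := by exact_mod_cast hq
  have hexp : Real.exp 1 ≤ 7 := by have := Real.exp_one_lt_d9; linarith
  have h := Real.log_div_self_antitoneOn (a := 7) (b := q) hexp (le_trans hexp hQ) hQ
  simp only at h
  have h7 := log7_hi
  have h7' := log7_lo
  have hlq : Real.log q ≤ 72 / 259 * q := by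
    rw [div_le_iff₀ (by linarith)] at h
    calc Real.log q ≤ Real.log 7 / 7 * q := h
      _ ≤ (72 / 37) / 7 * q := by gcongr
      _ = 72 / 259 * q := by ring
  have hlq7 : Real.log 7 ≤ Real.log q := Real.log_le_log (by norm_num) hQ
  have hln : Real.log q ≤ Real.log n := Real.log_le_log (by linarith) hXQ
  have hE : (Real.log q + 1 / (q : ℝ) + Real.log q / ((q : ℝ) - 1)) / ((q : ℝ) - 1)
      ≤ 4023 / 10000 := by
    rw [div_le_iff₀ (by linarith)]
    have e1 : 1 / (q : ℝ) ≤ 1 / 7 := one_div_le_one_div_of_le (by norm_num) hQ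
    have e2 : Real.log q / ((q : ℝ) - 1) ≤ 72 / 259 * (7 / 6) := by
      rw [div_le_iff₀ (by linarith)]
      nlinarith
    nlinarith
  have hlogdiv : Real.log ((n : ℝ) / q) = Real.log n - Real.log q :=
    Real.log_div (by linarith) (by linarith)
  rw [hlogdiv] at hT
  have hT2 : T ≤ (n : ℝ) * (4023 / 10000) * (Real.log n - 17 / 18) := by
    calc T ≤ (n : ℝ) *
      ((Real.log q + 1 / (q : ℝ) + Real.log q / ((q : ℝ) - 1)) / ((q : ℝ) - 1)) *
      (1 + (Real.log n - Real.log q)) := hT
      _ ≤ (n : ℝ) * (4023 / 10000) * (1 + (Real.log n - Real.log q)) := by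
          apply mul_le_mul_of_nonneg_right _ (by linarith)
          apply mul_le_mul_of_nonneg_left hE (by linarith)
      _ ≤ (n : ℝ) * (4023 / 10000) * (Real.log n - 17 / 18) := by
          apply mul_le_mul_of_nonneg_left _ (by positivity)
          linarith
  have hW : Real.log q + T ≤ Real.log n + (n : ℝ) * (4023 / 10000) * (Real.log n - 17 / 18) := by
    linarith
  have hc : ((q : ℝ) + 1) / ((q : ℝ) - 1) ≤ 4 / 3 := by
    rw [div_le_div_iff₀ (by linarith) (by norm_num)]
    linarith
  have hc0 : 0 ≤ ((q : ℝ) + 1) / ((q : ℝ) - 1) := div_nonneg (by linarith) (by linarith)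
  have hln2 : 35 / 18 ≤ Real.log n := by linarith
  have hW0 : 0 ≤ Real.log n + (n : ℝ) * (4023 / 10000) * (Real.log n - 17 / 18) := by
    have : 0 ≤ (n : ℝ) * (4023 / 10000) * (Real.log n - 17 / 18) := by
      apply mul_nonneg (by positivity) (by linarith)
    linarith
  have hfin := log_fact_lower (n := n) (by omega)
  calc ((q : ℝ) + 1) / ((q : ℝ) - 1) * (Real.log q + T)
      ≤ ((q : ℝ) + 1) / ((q : ℝ) - 1) *
        (Real.log n + (n : ℝ) * (4023 / 10000) * (Real.log n - 17 / 18)) :=
        mul_le_mul_of_nonneg_left hW hc0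
    _ ≤ 4 / 3 * (Real.log n + (n : ℝ) * (4023 / 10000) * (Real.log n - 17 / 18)) :=
        mul_le_mul_of_nonneg_right hc hW0
    _ ≤ (n : ℝ) * Real.log n - n := by
        have p1 : 0 ≤ ((n : ℝ) - 15) * (Real.log n - 35 / 18) :=
          mul_nonneg (by linarith) (by linarith)
        nlinarith
    _ ≤ Real.log n.factorial := hfin

theorem num_5 {n : ℕ} (hn : 31 ≤ n) {T : ℝ}
    (hT : T ≤ (n : ℝ) *
      ((Real.log 5 + 1 / 5 + Real.log 5 / (5 - 1)) / (5 - 1)) *
      (1 + Real.log ((n : ℝ) / 5))) :
    (5 + 1) / (5 - 1) * (Real.log 5 + T) ≤ Real.log n.factorial := by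
  have hX : (31 : ℝ) ≤ n := by exact_mod_cast hn
  have a1 := log5_lo
  have a2 := log5_hi
  have hlogdiv : Real.log ((n : ℝ) / 5) = Real.log n - Real.log 5 :=
    Real.log_div (by linarith) (by norm_num)
  rw [hlogdiv] at hT
  have h30 : (34 : ℝ) / 10 ≤ Real.log n := by
    have e : Real.log 30 = Real.log 2 + Real.log 3 + Real.log 5 := by
      rw [← Real.log_mul (by norm_num) (by norm_num), ← Real.log_mul (by norm_num) (by norm_num)]
      norm_num
    have e1 : Real.log 30 ≤ Real.log n := Real.log_le_log (by norm_num) (by linarith)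
    have := Real.log_two_gt_d9
    have := log3_lo
    linarith
  have hE : (Real.log 5 + 1 / 5 + Real.log 5 / (5 - 1)) / (5 - 1) ≤ 553 / 1000 := by
    rw [div_le_iff₀ (by norm_num)]
    linarith
  have hT2 : T ≤ (n : ℝ) * (553 / 1000) * (Real.log n - 39 / 64) := by
    calc T ≤ _ := hT
      _ ≤ (n : ℝ) * (553 / 1000) * (1 + (Real.log n - Real.log 5)) := by
          apply mul_le_mul_of_nonneg_right _ (by linarith)
          apply mul_le_mul_of_nonneg_left hE (by linarith)
      _ ≤ _ := by
          apply mul_le_mul_of_nonneg_left _ (by positivity)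
          linarith
  have hfin := log_fact_lower (n := n) (by omega)
  have p1 : 0 ≤ ((n : ℝ) - 31) * (Real.log n - 34 / 10) := mul_nonneg (by linarith) (by linarith)
  have : (5 + 1) / (5 - 1) * (Real.log 5 + T) ≤ (n : ℝ) * Real.log n - n := by
    norm_num
    nlinarith
  linarith

theorem num_8 {n : ℕ} (hn : 17 ≤ n) {T : ℝ}
    (hT : T ≤ (n : ℝ) *
      ((Real.log 8 + 1 / 8 + Real.log 2 / (2 - 1)) / (8 - 1)) *
      (1 + Real.log ((n : ℝ) / 8))) :
    9 / 4 * (Real.log 2 + T) ≤ Real.log n.factorial := by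
  have hX : (17 : ℝ) ≤ n := by exact_mod_cast hn
  have a1 := Real.log_two_gt_d9
  have a2 := Real.log_two_lt_d9
  have h8 : Real.log 8 = 3 * Real.log 2 := by
    rw [show (8 : ℝ) = 2 ^ 3 by norm_num, Real.log_pow]; norm_num
  have hlogdiv : Real.log ((n : ℝ) / 8) = Real.log n - Real.log 8 :=
    Real.log_div (by linarith) (by norm_num)
  rw [hlogdiv] at hT
  have h16 : (277 : ℝ) / 100 ≤ Real.log n := by
    have e : Real.log 16 = 4 * Real.log 2 := by
      rw [show (16 : ℝ) = 2 ^ 4 by norm_num, Real.log_pow]; norm_num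
    have e1 : Real.log 16 ≤ Real.log n := Real.log_le_log (by norm_num) (by linarith)
    linarith
  have hE : (Real.log 8 + 1 / 8 + Real.log 2 / (2 - 1)) / (8 - 1) ≤ 414 / 1000 := by
    rw [div_le_iff₀ (by norm_num), h8]
    linarith
  have hT2 : T ≤ (n : ℝ) * (414 / 1000) * (Real.log n - 1079 / 1000) := by
    calc T ≤ _ := hT
      _ ≤ (n : ℝ) * (414 / 1000) * (1 + (Real.log n - Real.log 8)) := by
          apply mul_le_mul_of_nonneg_right _ (by linarith)
          apply mul_le_mul_of_nonneg_left hE (by linarith)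
      _ ≤ _ := by
          apply mul_le_mul_of_nonneg_left _ (by positivity)
          linarith
  have hfin := log_fact_lower (n := n) (by omega)
  have p1 : 0 ≤ ((n : ℝ) - 17) * (Real.log n - 277 / 100) := mul_nonneg (by linarith) (by linarith)
  have : 9 / 4 * (Real.log 2 + T) ≤ (n : ℝ) * Real.log n - n := by
    nlinarith
  linarith

/-- shape of a solution when the exponent `k - 1 = q * s` -/
theorem shape {n x s q : ℕ} (hx : 2 ≤ x) (hs : 1 ≤ s)
    (h : n.factorial + x = x ^ (q * s + 1)) :
    ∃ z : ℕ, 2 ≤ z ∧ x ≤ z ∧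
      n.factorial = x * ((z - 1) * ∑ i ∈ range q, z ^ i) := by
  have hz : 2 ≤ x ^ s := le_trans hx (Nat.le_self_pow (by omega) x)
  refine ⟨x ^ s, hz, Nat.le_self_pow (by omega) x, ?_⟩
  obtain ⟨w, hw⟩ : ∃ w, x ^ s = w + 1 := ⟨x ^ s - 1, by omega⟩
  have hg := geom_sum_mul_add w q
  rw [pow_succ, mul_comm q s, pow_mul, hw, ← hg] at h
  rw [hw]
  have h3 : n.factorial + x = (x * (w * ∑ i ∈ range q, (w + 1) ^ i)) + x := by
    rw [h]; ring
  simpa using h3

theorem prime_case {n x s q : ℕ} (hq : q.Prime) (hq3 : 3 ≤ q) (hx : 2 ≤ x) (hs : 1 ≤ s)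
    (h : n.factorial + x = x ^ (q * s + 1)) :
    Real.log n.factorial <
      ((q : ℝ) + 1) / ((q : ℝ) - 1) * (Real.log q + ell (ind q) n.factorial) ∧
    0 < ell (ind q) n.factorial ∧ 14 ≤ n.factorial := by
  obtain ⟨z, hz, hxz, hfac⟩ := shape hx hs h
  set G := ∑ i ∈ range q, z ^ i with hG
  have hdvd : G ∣ n.factorial := by
    rw [hfac]; exact Dvd.intro_left _ (by ring_nf : x * (z - 1) * G = x * ((z - 1) * G)) |>.trans (dvd_refl _)
  have hlog := geom_log_le hq hq3 hz hdvd
  rw [← hG] at hlog
  have hGlow : z ^ (q - 1) + 1 ≤ G := by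
    have e : q = (q - 1) + 1 := by omega
    rw [hG, e, Finset.sum_range_succ]
    simp only [Nat.add_sub_cancel]
    have : 1 ≤ ∑ i ∈ range (q - 1), z ^ i := by
      have h0 : z ^ 0 ≤ ∑ i ∈ range (q - 1), z ^ i :=
        Finset.single_le_sum (f := fun i => z ^ i) (fun _ _ => Nat.zero_le _)
          (Finset.mem_range.2 (by omega))
      simpa using h0
    omega
  have hGq : q < G := by
    have h1 : q - 1 < 2 ^ (q - 1) := Nat.lt_two_pow_self
    have h2 : 2 ^ (q - 1) ≤ z ^ (q - 1) := Nat.pow_le_pow_left hz _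
    omega
  have hG4 : 7 ≤ G := by
    have h2 : 2 ^ 2 ≤ z ^ 2 := Nat.pow_le_pow_left hz _
    have h3 : range 3 ⊆ range q := Finset.range_subset_range.2 hq3
    have h4 : ∑ i ∈ range 3, z ^ i ≤ G := Finset.sum_le_sum_of_subset h3
    simp [Finset.sum_range_succ] at h4
    omega
  have hGpos : (0 : ℝ) < G := by exact_mod_cast (by omega : 0 < G)
  have hzpos : (0 : ℝ) < z := by exact_mod_cast (by omega : 0 < z)
  have hqpos : (0 : ℝ) < (q : ℝ) - 1 := by
    have : (3 : ℝ) ≤ q := by exact_mod_cast hq3
    linarith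
  refine ⟨?_, ?_, ?_⟩
  · have h1 : n.factorial < z * z * G := by
      rw [hfac]
      calc x * ((z - 1) * G) ≤ z * ((z - 1) * G) := Nat.mul_le_mul_right _ hxz
        _ < z * (z * G) := by
            apply Nat.mul_lt_mul_of_pos_left _ (by omega)
            apply Nat.mul_lt_mul_of_pos_right (by omega) (by omega)
        _ = z * z * G := by ring
    have h2 : Real.log n.factorial < 2 * Real.log z + Real.log G := by
      have : Real.log n.factorial < Real.log ((z : ℝ) * z * G) := by
        apply Real.log_lt_log (by exact_mod_cast Nat.factorial_pos n)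
        exact_mod_cast h1
      rw [Real.log_mul (by positivity) (by positivity),
        Real.log_mul (by positivity) (by positivity)] at this
      linarith
    have h3 : ((q : ℝ) - 1) * Real.log z ≤ Real.log G := by
      have : Real.log ((z : ℝ) ^ (q - 1)) ≤ Real.log G := by
        apply Real.log_le_log (by positivity)
        exact_mod_cast (by omega : z ^ (q - 1) ≤ G)
      rw [Real.log_pow, Nat.cast_sub (by omega)] at this
      simpa using this
    have h4 : 2 * Real.log z + Real.log G ≤ ((q : ℝ) + 1) / ((q : ℝ) - 1) * Real.log G := by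
      rw [div_mul_eq_mul_div, le_div_iff₀ hqpos]
      nlinarith
    have h5 : ((q : ℝ) + 1) / ((q : ℝ) - 1) * Real.log G ≤
        ((q : ℝ) + 1) / ((q : ℝ) - 1) * (Real.log q + ell (ind q) n.factorial) := by
      apply mul_le_mul_of_nonneg_left hlog
      apply div_nonneg _ hqpos.le
      positivity
    linarith
  · have h1 : Real.log q < Real.log G := by
      apply Real.log_lt_log (by exact_mod_cast (by omega : 0 < q))
      exact_mod_cast hGq
    linarith
  · rw [hfac]
    calc 14 = 2 * (1 * 7) := by norm_num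
      _ ≤ x * ((z - 1) * G) := by
          apply Nat.mul_le_mul hx
          apply Nat.mul_le_mul (by omega) hG4

theorem no_three {n x s : ℕ} (hx : 2 ≤ x) (hs : 1 ≤ s)
    (h : n.factorial + x = x ^ (3 * s + 1)) : False := by
  obtain ⟨h1, _, h3⟩ := prime_case (q := 3) Nat.prime_three le_rfl hx hs h
  have hn : 4 ≤ n := by
    by_contra hc
    have : n ≤ 3 := by omega
    have := Nat.factorial_le this
    simp [Nat.factorial] at this
    omega
  have h9 : Real.log 9 = 2 * Real.log 3 := by
    rw [show (9 : ℝ) = 3 ^ 2 by norm_num, Real.log_pow]; norm_num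
  have key : 2 * ell (ind 3) n.factorial + Real.log 9 ≤ Real.log n.factorial := by
    rcases Nat.lt_or_ge n 2000 with h2 | h2
    · exact small hn h2
    · exact big h2
  push_cast at h1
  have : ((3 : ℝ) + 1) / (3 - 1) = 2 := by norm_num
  rw [this] at h1
  linarith

theorem no_large_prime {n x s q : ℕ} (hq : q.Prime) (hq7 : 7 ≤ q) (hx : 2 ≤ x) (hs : 1 ≤ s)
    (h : n.factorial + x = x ^ (q * s + 1)) : False := by
  obtain ⟨h1, h2, _⟩ := prime_case hq (by omega) hx hs h
  rcases Nat.lt_or_ge (2 * q) n with hn | hn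
  · have hT := total (q := q) (r := q) (s := 1) hq le_rfl (by simp) (n := n) (by omega)
    have := num_ge7 hq7 (by omega) (by omega) hT
    linarith
  · have : ell (ind q) n.factorial = 0 := by
      apply ell_ind_zero
      intro p hp hpn hmod
      have hp2 := hp.two_le
      have hdiv := Nat.div_add_mod p q
      rw [hmod] at hdiv
      have hlt : p / q < 2 := by
        rw [Nat.div_lt_iff_lt_mul (by omega)]
        rcases Nat.lt_or_ge p (2 * q) with h' | h'
        · exact h'
        · have : p = 2 * q := by omega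
          rw [this, Nat.mul_mod_left] at hmod
          omega
      interval_cases hpq : p / q
      · omega
      · have hpe : p = q + 1 := by omega
        have hqo : Odd q := hq.odd_of_ne_two (by omega)
        have : Even p := by rw [hpe]; exact hqo.add_one
        have := (hp.even_iff).1 this
        omega
    linarith

theorem no_five {n x s : ℕ} (hx : 2 ≤ x) (hs : 1 ≤ s)
    (h : n.factorial + x = x ^ (5 * s + 1)) : False := by
  obtain ⟨h1, h2, _⟩ := prime_case (q := 5) Nat.prime_five (by norm_num) hx hs h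
  rcases Nat.lt_or_ge n 31 with hn | hn
  · rcases Nat.lt_or_ge n 11 with hn' | hn'
    · have : ell (ind 5) n.factorial = 0 := by
        apply ell_ind_zero
        intro p hp hpn hmod
        have : p ≤ 10 := by omega
        interval_cases p <;> first | omega | (revert hp; norm_num)
      linarith
    · -- n between 11 and 30
      have hell : ell (ind 5) n.factorial ≤ 2 * Real.log 11 := by
        calc ell (ind 5) n.factorial ≤ ell (ind 5) (30).factorial :=
              ell_dvd_le (fun p => by unfold ind; split_ifs <;> norm_num)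
                (Nat.factorial_dvd_factorial (by omega)) (Nat.factorial_ne_zero _)
          _ ≤ 2 * Real.log 11 := by
              rw [ell_eq]
              have : ∀ p ∈ (Nat.factorial 30).primeFactors,
                  ((Nat.factorial 30).factorization p : ℝ) * (Real.log p * ind 5 p)
                    ≤ if p = 11 then 2 * Real.log 11 else 0 := by
                intro p hp
                have hpp := Nat.prime_of_mem_primeFactors hp
                have hpn : p ≤ 30 := (hpp.dvd_factorial).1 (Nat.dvd_of_mem_primeFactors hp)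
                by_cases h11 : p = 11
                · subst h11
                  rw [if_pos rfl, Nat.factorization_factorial hpp (b := 3) (by norm_num [Nat.log])]
                  norm_num [ind, Finset.sum_Ico_succ_top]
                · rw [if_neg h11]
                  have : ind 5 p = 0 := by
                    unfold ind
                    rw [if_neg]
                    intro hmod
                    interval_cases p <;> first | omega | (revert hpp; norm_num)
                  simp [this]
              refine (Finset.sum_le_sum this).trans ?_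
              rw [Finset.sum_ite_eq']
              split_ifs
              · exact le_rfl
              · have : 0 ≤ Real.log 11 := Real.log_nonneg (by norm_num)
                linarith
      push_cast at h1
      have hlt : Real.log n.factorial < 3 / 2 * (Real.log 5 + 2 * Real.log 11) := by
        have : ((5 : ℝ) + 1) / (5 - 1) = 3 / 2 := by norm_num
        rw [this] at h1
        linarith
      have h605 : Real.log 5 + 2 * Real.log 11 = Real.log 605 := by
        rw [show (605 : ℝ) = 5 * 11 ^ 2 by norm_num, Real.log_mul (by norm_num) (by norm_num),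
          Real.log_pow]
        norm_num
      rw [h605] at hlt
      have h2' : 2 * Real.log n.factorial < 3 * Real.log 605 := by linarith
      have h3' : Real.log ((n.factorial : ℝ) ^ 2) < Real.log ((605 : ℝ) ^ 3) := by
        rw [Real.log_pow, Real.log_pow]; exact_mod_cast h2'
      have h4' : ((n.factorial : ℝ) ^ 2) < (605 : ℝ) ^ 3 := by
        by_contra hc
        push Not at hc
        have := Real.log_le_log (by norm_num) hc
        linarith
      have h5' : n.factorial ^ 2 < 605 ^ 3 := by exact_mod_cast h4'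
      have h6' : Nat.factorial 11 ≤ n.factorial := Nat.factorial_le hn'
      have h7' : Nat.factorial 11 ^ 2 ≤ n.factorial ^ 2 := Nat.pow_le_pow_left h6' 2
      have h8' : 605 ^ 3 < Nat.factorial 11 ^ 2 := by norm_num [Nat.factorial]
      omega
  · have hT := total (q := 5) (r := 5) (s := 1) Nat.prime_five le_rfl (by simp) (n := n) (by omega)
    push_cast at hT h1
    have := num_5 hn hT
    linarith

theorem no_eight {n x s : ℕ} (hx : 2 ≤ x) (hs : 1 ≤ s)
    (h : n.factorial + x = x ^ (8 * s + 1)) : False := by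
  obtain ⟨z, hz, hxz, hfac⟩ := shape hx hs h
  have hsum : (z - 1) * ∑ i ∈ range 8, z ^ i = (z ^ 4 - 1) * (z ^ 4 + 1) := by
    obtain ⟨w, rfl⟩ : ∃ w, z = w + 1 := ⟨z - 1, by omega⟩
    have h1 := geom_sum_mul_add w 8
    have h2 : 1 ≤ (w + 1) ^ 4 := Nat.one_le_pow _ _ (by omega)
    have h3 : ((w + 1) ^ 4 - 1) * ((w + 1) ^ 4 + 1) + 1 = (w + 1) ^ 8 := by
      obtain ⟨v, hv⟩ : ∃ v, (w + 1) ^ 4 = v + 1 := ⟨(w + 1) ^ 4 - 1, by omega⟩
      have : (w + 1) ^ 8 = ((w + 1) ^ 4) ^ 2 := by ring
      rw [this, hv]
      simp only [Nat.add_sub_cancel]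
      ring
    simp only [Nat.add_sub_cancel]
    rw [← h1] at h3
    have : w * ∑ i ∈ range 8, (w + 1) ^ i = (∑ i ∈ range 8, (w + 1) ^ i) * w := mul_comm _ _
    omega
  rw [hsum] at hfac
  have hdvd : (z ^ 4 + 1) ∣ n.factorial := by
    rw [hfac]; exact Dvd.intro_left (x * (z ^ 4 - 1)) (by ring)
  have hlog := quart_log_le hz hdvd
  have hz4 : 2 ^ 4 ≤ z ^ 4 := Nat.pow_le_pow_left hz 4
  have hGpos : (0 : ℝ) < ((z ^ 4 + 1 : ℕ) : ℝ) := by positivity
  have hzpos : (0 : ℝ) < z := by exact_mod_cast (by omega : 0 < z)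
  have h1 : n.factorial < z * z ^ 4 * (z ^ 4 + 1) := by
    rw [hfac]
    calc x * ((z ^ 4 - 1) * (z ^ 4 + 1)) ≤ z * ((z ^ 4 - 1) * (z ^ 4 + 1)) :=
          Nat.mul_le_mul_right _ hxz
      _ < z * (z ^ 4 * (z ^ 4 + 1)) := by
          apply Nat.mul_lt_mul_of_pos_left _ (by omega)
          apply Nat.mul_lt_mul_of_pos_right (by omega) (by omega)
      _ = z * z ^ 4 * (z ^ 4 + 1) := by ring
  have h2 : Real.log n.factorial < 5 * Real.log z + Real.log ((z ^ 4 + 1 : ℕ) : ℝ) := by
    have : Real.log n.factorial < Real.log ((z : ℝ) * z ^ 4 * ((z ^ 4 + 1 : ℕ) : ℝ)) := by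
      apply Real.log_lt_log (by exact_mod_cast Nat.factorial_pos n)
      exact_mod_cast h1
    rw [Real.log_mul (by positivity) (by positivity),
      Real.log_mul (by positivity) (by positivity), Real.log_pow] at this
    push_cast at this ⊢
    linarith
  have h3 : 4 * Real.log z ≤ Real.log ((z ^ 4 + 1 : ℕ) : ℝ) := by
    have : Real.log ((z : ℝ) ^ 4) ≤ Real.log ((z ^ 4 + 1 : ℕ) : ℝ) := by
      apply Real.log_le_log (by positivity)
      push_cast; linarith
    rw [Real.log_pow] at this
    exact_mod_cast this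
  have h4 : Real.log n.factorial < 9 / 4 * (Real.log 2 + ell (ind 8) n.factorial) := by
    linarith
  rcases Nat.lt_or_ge n 17 with hn | hn
  · have : ell (ind 8) n.factorial = 0 := by
      apply ell_ind_zero
      intro p hp hpn hmod
      have : p ≤ 16 := by omega
      interval_cases p <;> first | omega | (revert hp; norm_num)
    rw [this, add_zero] at hlog
    have h17 : Real.log 2 < Real.log ((z ^ 4 + 1 : ℕ) : ℝ) := by
      apply Real.log_lt_log (by norm_num)
      have : 17 ≤ z ^ 4 + 1 := by omega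
      have : (17 : ℝ) ≤ ((z ^ 4 + 1 : ℕ) : ℝ) := by exact_mod_cast this
      linarith
    linarith
  · have hT := total (q := 8) (r := 2) (s := 3) Nat.prime_two (by norm_num) (by norm_num)
      (n := n) (by omega)
    push_cast at hT
    have := num_8 hn hT
    linarith

/-- `n! + x = x ^ k` with `k ≥ 3` forces `k = 3` or `k = 5`. -/
theorem exponent {n x k : ℕ} (hx : 2 ≤ x) (hk : 3 ≤ k)
    (h : n.factorial + x = x ^ k) : k = 3 ∨ k = 5 := by
  by_contra hc
  push Not at hc
  obtain ⟨m, rfl⟩ : ∃ m, k = m + 1 := ⟨k - 1, by omega⟩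
  have hm3 : 3 ≤ m := by omega
  have hm4 : m ≠ 4 := by omega
  rcases Nat.eq_two_pow_or_exists_odd_prime_and_dvd m with ⟨a, ha⟩ | ⟨q, hq, hqm, hodd⟩
  · have ha3 : 3 ≤ a := by
      by_contra hlt
      have : a < 3 := by omega
      interval_cases a <;> omega
    obtain ⟨b, rfl⟩ : ∃ b, a = 3 + b := ⟨a - 3, by omega⟩
    have hm : m = 8 * 2 ^ b := by rw [ha, pow_add]; norm_num
    rw [hm] at h
    exact no_eight hx (Nat.one_le_two_pow) h
  · obtain ⟨s, rfl⟩ := hqm
    have hs : 1 ≤ s := by
      rcases Nat.eq_zero_or_pos s with rfl | hs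
      · omega
      · exact hs
    have hq2 : q ≠ 2 := by rintro rfl; revert hodd; decide
    have hq2' := hq.two_le
    rcases Nat.lt_or_ge q 7 with hq7 | hq7
    · interval_cases q
      · omega
      · exact no_three hx hs h
      · exact absurd hq (by norm_num)
      · exact no_five hx hs h
      · exact absurd hq (by norm_num)
    · exact no_large_prime hq hq7 hx hs h

end FacPow
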