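import Pool.Agent.Helper929.FP.Base

open ArithmeticFunction Finset

namespace FacPow



theorem M_bound_log5 : 3 / 2 ≤ Real.log 5 := by
  have h1 : (3 : ℝ) ≤ Real.log 25 := by
    rw [Real.le_log_iff_exp_le (by norm_num)]
    have e : Real.exp 3 = Real.exp 1 ^ 3 := by
      rw [← Real.exp_nat_mul]
      norm_num
    rw [e]
    have h2 := Real.exp_one_lt_d9
    have h3 : Real.exp 1 ^ 3 ≤ (2.7182818286 : ℝ) ^ 3 :=
      pow_le_pow_left₀ (Real.exp_pos 1).le h2.le 3
    refine h3.trans (by norm_num)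
  have h2 : Real.log 25 = 2 * Real.log 5 := by
    rw [show (25 : ℝ) = 5 ^ 2 by norm_num, Real.log_pow]
    norm_num
  linarith

theorem M_bound_conv (a : ℝ) (ha : 5 ≤ a) :
    3 * (Real.log (a + 2) / (a + 2)) ≤ Real.log a / a + 2 * (Real.log (a + 3) / (a + 3)) := by
  have hconv : ConvexOn ℝ (Set.Ici (5 : ℝ)) (fun t => Real.log t / t) := by
    refine convexOn_of_hasDerivWithinAt2_nonneg (f' := fun t => (1 - Real.log t) / t ^ 2)
      (f'' := fun t => (2 * Real.log t - 3) / t ^ 3) (convex_Ici 5) ?_ ?_ ?_ ?_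
    · intro t ht
      have ht' : (5 : ℝ) ≤ t := ht
      exact ((Real.continuousAt_log (by linarith)).div continuousAt_id
        (by simp only [id]; linarith)).continuousWithinAt
    · intro t ht
      rw [interior_Ici] at ht
      have ht' : (5 : ℝ) < t := ht
      have ht0 : t ≠ 0 := by linarith
      have h := ((Real.hasDerivAt_log ht0).div (hasDerivAt_id t) ht0).hasDerivWithinAt
        (s := interior (Set.Ici (5 : ℝ)))
      refine h.congr_deriv ?_
      simp only [id]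
      field_simp
    · intro t ht
      rw [interior_Ici] at ht
      have ht' : (5 : ℝ) < t := ht
      have ht0 : t ≠ 0 := by linarith
      have h := (((hasDerivAt_const t (1 : ℝ)).sub (Real.hasDerivAt_log ht0)).div
        (hasDerivAt_pow 2 t) (pow_ne_zero 2 ht0)).hasDerivWithinAt
        (s := interior (Set.Ici (5 : ℝ)))
      refine h.congr_deriv ?_
      simp only [Pi.sub_apply]
      field_simp
      ring
    · intro t ht
      rw [interior_Ici] at ht
      have ht' : (5 : ℝ) < t := ht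
      have h5 := M_bound_log5
      have h6 : Real.log 5 ≤ Real.log t := Real.log_le_log (by norm_num) ht'.le
      have h7 : 0 < t ^ 3 := by positivity
      exact div_nonneg (by linarith) h7.le
  have ha3 : a + 3 ∈ Set.Ici (5 : ℝ) := by
    change (5 : ℝ) ≤ a + 3
    linarith
  have h := hconv.2 (show a ∈ Set.Ici (5 : ℝ) from ha) ha3
    (show (0 : ℝ) ≤ 1 / 3 by norm_num) (show (0 : ℝ) ≤ 2 / 3 by norm_num) (by norm_num)
  simp only [smul_eq_mul] at h
  have e : 1 / 3 * a + 2 / 3 * (a + 3) = a + 2 := by ring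
  rw [e] at h
  linarith

theorem M_bound_logc (a : ℝ) (ha : 5 ≤ a) :
    Real.log a + 2 * Real.log (a + 3) ≤ 3 * Real.log (a + 2) := by
  have e1 : Real.log a + 2 * Real.log (a + 3) = Real.log (a * (a + 3) ^ 2) := by
    rw [Real.log_mul (by linarith) (by positivity), Real.log_pow]
    norm_num
  have e2 : 3 * Real.log (a + 2) = Real.log ((a + 2) ^ 3) := by
    rw [Real.log_pow]
    norm_num
  rw [e1, e2]
  refine Real.log_le_log (by positivity) ?_
  nlinarith

theorem M_bound_step (n : ℝ) (hn : 0 ≤ n) (a : ℝ) (ha : 5 ≤ a) :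
    3 * (Real.log (a + 2) * (n / (a + 2) - 9 / 10)) ≤
      Real.log a * (n / a - 9 / 10) + 2 * (Real.log (a + 3) * (n / (a + 3) - 9 / 10)) := by
  have h1 := M_bound_conv a ha
  have h2 := M_bound_logc a ha
  have h3 := mul_le_mul_of_nonneg_left h1 hn
  have e1 : Real.log (a + 2) * (n / (a + 2) - 9 / 10) =
    n * (Real.log (a + 2) / (a + 2)) - 9 / 10 * Real.log (a + 2) := by ring
  have e2 : Real.log (a + 3) * (n / (a + 3) - 9 / 10) =
    n * (Real.log (a + 3) / (a + 3)) - 9 / 10 * Real.log (a + 3) := by ring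
  have e3 : Real.log a * (n / a - 9 / 10) =
    n * (Real.log a / a) - 9 / 10 * Real.log a := by ring
  rw [e1, e2, e3]
  nlinarith

theorem M_bound_ind (n : ℕ) (i : ℕ) :
    ∑ j ∈ Ioc 0 (3 * i + 5), chi j * Real.log j * ((n : ℝ) / j - 9 / 10) +
      1 / 3 * (Real.log ((3 * i + 5 : ℕ) : ℝ) * ((n : ℝ) / ((3 * i + 5 : ℕ) : ℝ) - 9 / 10))
      ≤ -(2 / 15) * Real.log 5 * n + (6 / 10 * Real.log 5 - 9 / 10 * Real.log 2) := by
  induction i with
  | zero =>
    have hlog4 : Real.log 4 = 2 * Real.log 2 := by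
      rw [show (4 : ℝ) = 2 ^ 2 by norm_num, Real.log_pow]
      norm_num
    have c1 : chi 1 = 1 := by norm_num [chi]
    have c2 : chi 2 = -1 := by norm_num [chi]
    have c3 : chi 3 = 0 := by norm_num [chi]
    have c4 : chi 4 = 1 := by norm_num [chi]
    have c5 : chi 5 = -1 := by norm_num [chi]
    have e : ∑ j ∈ Ioc 0 (3 * 0 + 5), chi j * Real.log j * ((n : ℝ) / j - 9 / 10) =
        - (Real.log 2 * ((n : ℝ) / 2 - 9 / 10)) + Real.log 4 * ((n : ℝ) / 4 - 9 / 10) -
          Real.log 5 * ((n : ℝ) / 5 - 9 / 10) := by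
      change ∑ j ∈ Ioc 0 5, _ = _
      rw [Finset.sum_Ioc_succ_top (by norm_num), Finset.sum_Ioc_succ_top (by norm_num),
        Finset.sum_Ioc_succ_top (by norm_num), Finset.sum_Ioc_succ_top (by norm_num),
        Finset.sum_Ioc_succ_top (by norm_num), Finset.Ioc_self, Finset.sum_empty]
      simp only [zero_add, Nat.reduceAdd, c1, c2, c3, c4, c5]
      push_cast
      rw [Real.log_one]
      ring
    rw [e]
    have e2 : ((3 * 0 + 5 : ℕ) : ℝ) = 5 := by norm_num
    rw [e2, hlog4]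
    apply le_of_eq
    ring
  | succ i ih =>
    have e : 3 * (i + 1) + 5 = (3 * i + 5) + 1 + 1 + 1 := by ring
    rw [e, Finset.sum_Ioc_succ_top (Nat.zero_le _), Finset.sum_Ioc_succ_top (Nat.zero_le _),
      Finset.sum_Ioc_succ_top (Nat.zero_le _)]
    have c1 : chi (3 * i + 5 + 1) = 0 := by
      have h1 : (3 * i + 5 + 1) % 3 = 0 := by omega
      simp [chi, h1]
    have c2 : chi (3 * i + 5 + 1 + 1) = 1 := by
      have h1 : (3 * i + 5 + 1 + 1) % 3 = 1 := by omega
      simp [chi, h1]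
    have c3 : chi (3 * i + 5 + 1 + 1 + 1) = -1 := by
      have h1 : (3 * i + 5 + 1 + 1 + 1) % 3 = 2 := by omega
      simp [chi, h1]
    rw [c1, c2, c3]
    have hs := M_bound_step n (Nat.cast_nonneg n) ((3 * i + 5 : ℕ) : ℝ) (by push_cast; linarith [(Nat.cast_nonneg i : (0 : ℝ) ≤ i)])
    have d1 : ((3 * i + 5 + 1 + 1 : ℕ) : ℝ) = ((3 * i + 5 : ℕ) : ℝ) + 2 := by push_cast; ring
    have d2 : ((3 * i + 5 + 1 + 1 + 1 : ℕ) : ℝ) = ((3 * i + 5 : ℕ) : ℝ) + 3 := by push_cast; ring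
    rw [d1, d2]
    linarith

/-- TARGET -/
theorem M_bound {n : ℕ} (hn : 5 ≤ n) :
    ∑ j ∈ Ioc 0 n, chi j * Real.log j * ((n : ℝ) / j - 9 / 10)
      ≤ -(2 / 15) * Real.log 5 * n + (6 / 10 * Real.log 5 - 9 / 10 * Real.log 2)
        + 1 / 10 * Real.log n := by
  obtain ⟨i, hi⟩ : ∃ i, n = 3 * i + 5 ∨ n = 3 * i + 5 + 1 ∨ n = 3 * i + 5 + 1 + 1 :=
    ⟨(n - 5) / 3, by omega⟩
  have hlogn : 0 ≤ Real.log n := Real.log_natCast_nonneg n
  have hind := M_bound_ind n i
  have hnpos : (0 : ℝ) < n := by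
    have : 0 < n := by omega
    exact_mod_cast this
  have hle : 3 * i + 5 ≤ n := by omega
  have hf : 0 ≤ Real.log ((3 * i + 5 : ℕ) : ℝ) * ((n : ℝ) / ((3 * i + 5 : ℕ) : ℝ) - 9 / 10) := by
    refine mul_nonneg (Real.log_natCast_nonneg _) ?_
    have hpos : (0 : ℝ) < ((3 * i + 5 : ℕ) : ℝ) := by
      have : 0 < 3 * i + 5 := by omega
      exact_mod_cast this
    have hle' : ((3 * i + 5 : ℕ) : ℝ) ≤ n := by exact_mod_cast hle
    have h1 : 1 ≤ (n : ℝ) / ((3 * i + 5 : ℕ) : ℝ) := (one_le_div hpos).2 hle'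
    linarith
  rcases hi with hi | hi | hi
  · have e : Ioc 0 n = Ioc 0 (3 * i + 5) := by rw [hi]
    rw [e]
    linarith
  · have e : Ioc 0 n = Ioc 0 (3 * i + 5 + 1) := by rw [hi]
    rw [e, Finset.sum_Ioc_succ_top (Nat.zero_le _)]
    have c1 : chi (3 * i + 5 + 1) = 0 := by
      have h1 : (3 * i + 5 + 1) % 3 = 0 := by omega
      simp [chi, h1]
    rw [c1]
    linarith
  · have e : Ioc 0 n = Ioc 0 (3 * i + 5 + 1 + 1) := by rw [hi]
    rw [e, Finset.sum_Ioc_succ_top (Nat.zero_le _), Finset.sum_Ioc_succ_top (Nat.zero_le _)]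
    have c1 : chi (3 * i + 5 + 1) = 0 := by
      have h1 : (3 * i + 5 + 1) % 3 = 0 := by omega
      simp [chi, h1]
    have c2 : chi (3 * i + 5 + 1 + 1) = 1 := by
      have h1 : (3 * i + 5 + 1 + 1) % 3 = 1 := by omega
      simp [chi, h1]
    have d : ((3 * i + 5 + 1 + 1 : ℕ) : ℝ) = (n : ℝ) := by rw [hi]
    rw [c1, c2, d, div_self hnpos.ne']
    linarith

end FacPow
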