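import Pool.Agent.Helper929.FP.F

open ArithmeticFunction Finset

namespace FacPow
theorem chi_mul (a b : ℕ) : chi (a * b) = chi a * chi b := by
  unfold chi
  rw [Nat.mul_mod]
  have ha : a % 3 < 3 := Nat.mod_lt _ (by norm_num)
  have hb : b % 3 < 3 := Nat.mod_lt _ (by norm_num)
  interval_cases a % 3 <;> interval_cases b % 3 <;> norm_num

theorem abs_chi_le (a : ℕ) : |chi a| ≤ 1 := by
  unfold chi
  split_ifs <;> norm_num

theorem swap2 (F : ℕ → ℕ → ℝ) (N : ℕ) :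
    ∑ j ∈ Ioc 0 N, ∑ x ∈ j.divisorsAntidiagonal, F x.1 x.2
      = ∑ d ∈ Ioc 0 N, ∑ m ∈ Ioc 0 (N / d), F d m := by
  rw [Finset.sum_sigma', Finset.sum_sigma']
  refine Finset.sum_bij' (fun a _ => ⟨a.2.1, a.2.2⟩) (fun a _ => ⟨a.1 * a.2, (a.1, a.2)⟩)
    ?_ ?_ ?_ ?_ ?_
  · rintro ⟨j, d, m⟩ h
    simp only [Finset.mem_sigma, Finset.mem_Ioc, Nat.mem_divisorsAntidiagonal] at h ⊢
    obtain ⟨⟨h1, h2⟩, h3, h4⟩ := h
    have hd : 0 < d := by
      rcases Nat.eq_zero_or_pos d with rfl | hd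
      · simp at h3; omega
      · exact hd
    have hm : 0 < m := by
      rcases Nat.eq_zero_or_pos m with rfl | hm
      · simp at h3; omega
      · exact hm
    refine ⟨⟨hd, ?_⟩, hm, ?_⟩
    · calc d = d * 1 := (mul_one d).symm
        _ ≤ d * m := Nat.mul_le_mul_left _ hm
        _ = j := h3
        _ ≤ N := h2
    · rw [Nat.le_div_iff_mul_le hd, mul_comm]; omega
  · rintro ⟨d, m⟩ h
    simp only [Finset.mem_sigma, Finset.mem_Ioc, Nat.mem_divisorsAntidiagonal] at h ⊢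
    obtain ⟨⟨h1, h2⟩, h3, h4⟩ := h
    rw [Nat.le_div_iff_mul_le h1] at h4
    refine ⟨⟨Nat.mul_pos h1 h3, by rw [mul_comm]; exact h4⟩, trivial, (Nat.mul_pos h1 h3).ne'⟩
  · rintro ⟨j, d, m⟩ h
    simp only [Finset.mem_sigma, Finset.mem_Ioc, Nat.mem_divisorsAntidiagonal] at h
    obtain ⟨⟨h1, h2⟩, h3, h4⟩ := h
    subst h3
    rfl
  · rintro ⟨d, m⟩ h
    rfl
  · rintro ⟨j, d, m⟩ h
    rfl

theorem main_identity (n : ℕ) :
    ∑ j ∈ Ioc 0 n, chi j * Real.log j * ((n : ℝ) / j - 9 / 10)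
      = ∑ d ∈ Ioc 0 n, chi d * vonMangoldt d *
          ((n : ℝ) / d * PP (n / d) - 9 / 10 * SS (n / d)) := by
  have h1 : ∀ j ∈ Ioc 0 n, chi j * Real.log j * ((n : ℝ) / j - 9 / 10)
      = ∑ x ∈ j.divisorsAntidiagonal,
        (fun d m : ℕ => chi d * vonMangoldt d * (chi m * ((n : ℝ) / (d * m) - 9 / 10))) x.1 x.2 := by
    intro j hj
    rw [← vonMangoldt_sum, Finset.mul_sum, Finset.sum_mul,
      ← Nat.sum_divisorsAntidiagonal (fun d _ => chi j * vonMangoldt d * ((n : ℝ) / j - 9 / 10))]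
    refine Finset.sum_congr rfl fun x hx => ?_
    rw [Nat.mem_divisorsAntidiagonal] at hx
    simp only
    rw [← hx.1, chi_mul]
    push_cast
    ring
  rw [Finset.sum_congr rfl h1, swap2 (fun d m : ℕ => chi d * vonMangoldt d * (chi m * ((n : ℝ) / (d * m) - 9 / 10)))]
  refine Finset.sum_congr rfl fun d hd => ?_
  rw [← Finset.mul_sum]
  congr 1
  unfold PP SS
  rw [Finset.mul_sum, Finset.mul_sum, ← Finset.sum_sub_distrib]
  refine Finset.sum_congr rfl fun m hm => ?_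
  rw [Finset.mem_Ioc] at hd hm
  have hd0 : (d : ℝ) ≠ 0 := by have := hd.1; positivity
  have hm0 : (m : ℝ) ≠ 0 := by have := hm.1; positivity
  field_simp

theorem A_bound (n : ℕ) :
    LL * ∑ d ∈ Ioc 0 n, chi d * vonMangoldt d * ((n / d : ℕ) : ℝ)
      ≤ ∑ j ∈ Ioc 0 n, chi j * Real.log j * ((n : ℝ) / j - 9 / 10)
        + 835 / 1000 * LL * ∑ d ∈ Ioc 0 n, vonMangoldt d := by
  rw [main_identity, Finset.mul_sum, Finset.mul_sum, ← Finset.sum_add_distrib]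
  refine Finset.sum_le_sum fun d hd => ?_
  rw [Finset.mem_Ioc] at hd
  have hd0 : (0 : ℝ) < d := by have := hd.1; positivity
  have hk : 1 ≤ n / d := by rw [Nat.le_div_iff_mul_le hd.1]; omega
  have h1 : ((n / d : ℕ) : ℝ) ≤ (n : ℝ) / d := Nat.cast_div_le
  have h2 : (n : ℝ) / d ≤ ((n / d : ℕ) : ℝ) + 1 := by
    rw [div_le_iff₀ hd0]
    have := Nat.lt_div_mul_add (a := n) hd.1
    have h3 : n ≤ (n / d) * d + d := this.le
    have h4 : (n : ℝ) ≤ ((n / d : ℕ) : ℝ) * d + d := by exact_mod_cast h3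
    linarith
  have h3 := kernel_bound hk h1 h2
  set K := (n : ℝ) / d * PP (n / d) - 9 / 10 * SS (n / d) with hK
  have h4 : chi d * (LL * ((n / d : ℕ) : ℝ) - K) ≤ 835 / 1000 * LL := by
    calc chi d * (LL * ((n / d : ℕ) : ℝ) - K) ≤ |chi d * (LL * ((n / d : ℕ) : ℝ) - K)| := le_abs_self _
      _ = |chi d| * |K - LL * ((n / d : ℕ) : ℝ)| := by rw [abs_mul, abs_sub_comm]
      _ ≤ 1 * (835 / 1000 * LL) := by
          apply mul_le_mul (abs_chi_le d) h3 (abs_nonneg _) (by norm_num)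
      _ = _ := one_mul _
  have h5 := mul_le_mul_of_nonneg_left h4 (vonMangoldt_nonneg (n := d))
  nlinarith [h5]

end FacPow
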