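import Pool.Agent.Helper929.FP.Base

open ArithmeticFunction Finset

namespace FacPow



theorem extra_fl (n d : ℕ) (hd : 0 < d) : (n : ℝ) / d - 1 ≤ ((n / d : ℕ) : ℝ) := by
  have h1 : n < d * (n / d + 1) := Nat.lt_mul_div_succ n hd
  have h2 : (n : ℝ) < d * (((n / d : ℕ) : ℝ) + 1) := by exact_mod_cast h1
  have hd' : (0 : ℝ) < d := by exact_mod_cast hd
  have h3 : (n : ℝ) / d < ((n / d : ℕ) : ℝ) + 1 := by
    rw [div_lt_iff₀ hd']
    linarith
  linarith

theorem extra_val (p k : ℕ) (hp : p.Prime) (hk : k ≠ 0) (hp3 : p % 3 ≠ 1) (n : ℕ) :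
    (1 + chi (p ^ k)) * vonMangoldt (p ^ k) * ((n / (p ^ k) : ℕ) : ℝ)
      - 2 * (vonMangoldt (p ^ k) * ind 3 (p ^ k).minFac * ((n / (p ^ k) : ℕ) : ℝ))
      = (1 + chi (p ^ k)) * Real.log p * ((n / (p ^ k) : ℕ) : ℝ) := by
  rw [vonMangoldt_apply_pow hk, vonMangoldt_apply_prime hp, hp.pow_minFac hk]
  unfold ind
  rw [if_neg hp3]
  ring

theorem chi_ge (d : ℕ) : 0 ≤ 1 + chi d := by
  unfold chi
  split_ifs <;> norm_num

/-- TARGET -/
theorem extra {n : ℕ} (hn : 64 ≤ n) :
    2 * ell (ind 3) n.factorial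
      + (Real.log 3 * (13 / 27 * (n : ℝ) - 3) + 2 * Real.log 2 * (21 / 64 * (n : ℝ) - 3)
        + 2 * Real.log 5 * ((n : ℝ) / 25 - 1))
      ≤ ∑ d ∈ Ioc 0 n, (1 + chi d) * vonMangoldt d * ((n / d : ℕ) : ℝ) := by
  set D : ℕ → ℝ := fun d => (1 + chi d) * vonMangoldt d * ((n / d : ℕ) : ℝ)
      - 2 * (vonMangoldt d * ind 3 d.minFac * ((n / d : ℕ) : ℝ)) with hD
  have hsum : ∑ d ∈ Ioc 0 n, (1 + chi d) * vonMangoldt d * ((n / d : ℕ) : ℝ)
      = 2 * ell (ind 3) n.factorial + ∑ d ∈ Ioc 0 n, D d := by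
    rw [ell_factorial, hD, Finset.sum_sub_distrib, ← Finset.mul_sum]
    ring
  rw [hsum]
  have hDnn : ∀ d, 0 ≤ D d := by
    intro d
    rw [hD]
    show 0 ≤ (1 + chi d) * vonMangoldt d * ((n / d : ℕ) : ℝ)
      - 2 * (vonMangoldt d * ind 3 d.minFac * ((n / d : ℕ) : ℝ))
    by_cases h1 : d.minFac % 3 = 1
    · by_cases h2 : IsPrimePow d
      · obtain ⟨p, k, hp, hk, rfl⟩ := h2
        have hp' : p.Prime := hp.nat_prime
        rw [hp'.pow_minFac hk.ne'] at h1
        have h3 : (p ^ k) % 3 = 1 := by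
          rw [Nat.pow_mod, h1, one_pow]
          norm_num
        rw [hp'.pow_minFac hk.ne']
        unfold chi ind
        rw [if_pos h3, if_pos h1]
        apply le_of_eq
        ring
      · rw [vonMangoldt_eq_zero_iff.2 h2]
        simp
    · unfold ind
      rw [if_neg h1]
      have h4 := chi_ge d
      have h5 : 0 ≤ vonMangoldt d := vonMangoldt_nonneg
      have : 0 ≤ (1 + chi d) * vonMangoldt d * ((n / d : ℕ) : ℝ) := by positivity
      linarith
  have hE : ({3, 9, 27, 4, 16, 64, 25} : Finset ℕ) ⊆ Ioc 0 n := by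
    intro x hx
    rw [Finset.mem_Ioc]
    simp only [Finset.mem_insert, Finset.mem_singleton] at hx
    omega
  have h1 : ∑ d ∈ ({3, 9, 27, 4, 16, 64, 25} : Finset ℕ), D d ≤ ∑ d ∈ Ioc 0 n, D d :=
    Finset.sum_le_sum_of_subset_of_nonneg hE fun d _ _ => hDnn d
  rw [Finset.sum_insert (by decide), Finset.sum_insert (by decide), Finset.sum_insert (by decide),
    Finset.sum_insert (by decide), Finset.sum_insert (by decide), Finset.sum_insert (by decide),
    Finset.sum_singleton] at h1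
  have c3 : chi 3 = 0 := by unfold chi; norm_num
  have c9 : chi 9 = 0 := by unfold chi; norm_num
  have c27 : chi 27 = 0 := by unfold chi; norm_num
  have c4 : chi 4 = 1 := by unfold chi; norm_num
  have c16 : chi 16 = 1 := by unfold chi; norm_num
  have c64 : chi 64 = 1 := by unfold chi; norm_num
  have c25 : chi 25 = 1 := by unfold chi; norm_num
  have d3 : D 3 = Real.log 3 * ((n / 3 : ℕ) : ℝ) := by
    have := extra_val 3 1 (by norm_num) (by norm_num) (by norm_num) n
    norm_num [c3] at this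
    rw [hD]
    norm_num [c3]
    linarith
  have d9 : D 9 = Real.log 3 * ((n / 9 : ℕ) : ℝ) := by
    have := extra_val 3 2 (by norm_num) (by norm_num) (by norm_num) n
    norm_num [c9] at this
    rw [hD]
    norm_num [c9]
    linarith
  have d27 : D 27 = Real.log 3 * ((n / 27 : ℕ) : ℝ) := by
    have := extra_val 3 3 (by norm_num) (by norm_num) (by norm_num) n
    norm_num [c27] at this
    rw [hD]
    norm_num [c27]
    linarith
  have d4 : D 4 = 2 * Real.log 2 * ((n / 4 : ℕ) : ℝ) := by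
    have := extra_val 2 2 (by norm_num) (by norm_num) (by norm_num) n
    norm_num [c4] at this
    rw [hD]
    norm_num [c4]
    linarith
  have d16 : D 16 = 2 * Real.log 2 * ((n / 16 : ℕ) : ℝ) := by
    have := extra_val 2 4 (by norm_num) (by norm_num) (by norm_num) n
    norm_num [c16] at this
    rw [hD]
    norm_num [c16]
    linarith
  have d64 : D 64 = 2 * Real.log 2 * ((n / 64 : ℕ) : ℝ) := by
    have := extra_val 2 6 (by norm_num) (by norm_num) (by norm_num) n
    norm_num [c64] at this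
    rw [hD]
    norm_num [c64]
    linarith
  have d25 : D 25 = 2 * Real.log 5 * ((n / 25 : ℕ) : ℝ) := by
    have := extra_val 5 2 (by norm_num) (by norm_num) (by norm_num) n
    norm_num [c25] at this
    rw [hD]
    norm_num [c25]
    linarith
  rw [d3, d9, d27, d4, d16, d64, d25] at h1
  have l3 : 0 ≤ Real.log 3 := Real.log_nonneg (by norm_num)
  have l2 : 0 ≤ Real.log 2 := Real.log_nonneg (by norm_num)
  have l5 : 0 ≤ Real.log 5 := Real.log_nonneg (by norm_num)
  have f3 := mul_le_mul_of_nonneg_left (extra_fl n 3 (by norm_num)) l3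
  have f9 := mul_le_mul_of_nonneg_left (extra_fl n 9 (by norm_num)) l3
  have f27 := mul_le_mul_of_nonneg_left (extra_fl n 27 (by norm_num)) l3
  have f4 := mul_le_mul_of_nonneg_left (extra_fl n 4 (by norm_num)) l2
  have f16 := mul_le_mul_of_nonneg_left (extra_fl n 16 (by norm_num)) l2
  have f64 := mul_le_mul_of_nonneg_left (extra_fl n 64 (by norm_num)) l2
  have f25 := mul_le_mul_of_nonneg_left (extra_fl n 25 (by norm_num)) l5
  push_cast at f3 f9 f27 f4 f16 f64 f25
  linarith

end FacPow
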