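import Pool.Agent.Helper929.FP.H
import Pool.Agent.Helper929.FP.G
import Pool.Agent.Helper929.FP.I

open ArithmeticFunction Finset

namespace FacPow
theorem log_le_of_pow {a p q : ℕ} (ha : 0 < a) (hq : 0 < q)
    (h : (a : ℝ) ^ q ≤ (2.7182818283 : ℝ) ^ p) : Real.log a ≤ (p : ℝ) / q := by
  have ha' : (0 : ℝ) < a := by exact_mod_cast ha
  have hq' : (0 : ℝ) < q := by exact_mod_cast hq
  rw [le_div_iff₀ hq', mul_comm, ← Real.log_pow, Real.log_le_iff_le_exp (by positivity)]
  calc (a : ℝ) ^ q ≤ (2.7182818283 : ℝ) ^ p := h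
    _ ≤ (Real.exp 1) ^ p := pow_le_pow_left₀ (by norm_num) Real.exp_one_gt_d9.le _
    _ = Real.exp p := by rw [← Real.exp_nat_mul]; simp

theorem le_log_of_pow {a p q : ℕ} (ha : 0 < a) (hq : 0 < q)
    (h : (2.7182818286 : ℝ) ^ p ≤ (a : ℝ) ^ q) : (p : ℝ) / q ≤ Real.log a := by
  have ha' : (0 : ℝ) < a := by exact_mod_cast ha
  have hq' : (0 : ℝ) < q := by exact_mod_cast hq
  rw [div_le_iff₀ hq', mul_comm, ← Real.log_pow, Real.le_log_iff_exp_le (by positivity)]
  calc Real.exp p = (Real.exp 1) ^ p := by rw [← Real.exp_nat_mul]; simp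
    _ ≤ (2.7182818286 : ℝ) ^ p := pow_le_pow_left₀ (Real.exp_pos _).le Real.exp_one_lt_d9.le _
    _ ≤ (a : ℝ) ^ q := h

theorem log3_lo : (78 : ℝ) / 71 ≤ Real.log 3 := by
  have := le_log_of_pow (a := 3) (p := 78) (q := 71) (by norm_num) (by norm_num) (by norm_num)
  exact_mod_cast this
theorem log3_hi : Real.log 3 ≤ (167 : ℝ) / 152 := by
  have := log_le_of_pow (a := 3) (p := 167) (q := 152) (by norm_num) (by norm_num) (by norm_num)
  exact_mod_cast this
theorem log5_lo : (103 : ℝ) / 64 ≤ Real.log 5 := by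
  have := le_log_of_pow (a := 5) (p := 103) (q := 64) (by norm_num) (by norm_num) (by norm_num)
  exact_mod_cast this
theorem log5_hi : Real.log 5 ≤ (169 : ℝ) / 105 := by
  have := log_le_of_pow (a := 5) (p := 169) (q := 105) (by norm_num) (by norm_num) (by norm_num)
  exact_mod_cast this
theorem log7_lo : (35 : ℝ) / 18 ≤ Real.log 7 := by
  have := le_log_of_pow (a := 7) (p := 35) (q := 18) (by norm_num) (by norm_num) (by norm_num)
  exact_mod_cast this
theorem log7_hi : Real.log 7 ≤ (72 : ℝ) / 37 := by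
  have := log_le_of_pow (a := 7) (p := 72) (q := 37) (by norm_num) (by norm_num) (by norm_num)
  exact_mod_cast this
theorem log2000_hi : Real.log 2000 ≤ (7602 : ℝ) / 1000 := by
  have h2 := Real.log_two_lt_d9
  have h5 := log5_hi
  have : Real.log 2000 = 4 * Real.log 2 + 3 * Real.log 5 := by
    rw [show (2000 : ℝ) = 2 ^ 4 * 5 ^ 3 by norm_num, Real.log_mul (by norm_num) (by norm_num),
      Real.log_pow, Real.log_pow]
    norm_num
  rw [this]
  linarith

theorem sqrt_log_bound {n : ℕ} (hn : 2000 ≤ n) :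
    Real.sqrt n * Real.log n ≤ 17 / 100 * n ∧ Real.log n ≤ 4 / 1000 * n := by
  have hn' : (2000 : ℝ) ≤ n := by exact_mod_cast hn
  have hexp : Real.exp 2 ≤ 2000 := by
    have : Real.exp 2 = Real.exp 1 ^ 2 := by rw [← Real.exp_nat_mul]; norm_num
    rw [this]
    have h1 := Real.exp_one_lt_d9
    have h0 := Real.exp_pos 1
    nlinarith
  have h := Real.log_div_sqrt_antitoneOn (a := 2000) (b := n) hexp (le_trans hexp hn') hn'
  simp only at h
  have hs : (4472 : ℝ) / 100 ≤ Real.sqrt 2000 := by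
    apply Real.le_sqrt_of_sq_le; norm_num
  have h2000 : Real.log 2000 / Real.sqrt 2000 ≤ 17 / 100 := by
    rw [div_le_iff₀ (by linarith)]
    have := log2000_hi
    linarith
  have hsn : (4472 : ℝ) / 100 ≤ Real.sqrt n := hs.trans (Real.sqrt_le_sqrt hn')
  have hsn0 : 0 < Real.sqrt n := by linarith
  have hc : Real.log n ≤ 17 / 100 * Real.sqrt n := by
    rw [← div_le_iff₀ hsn0]; exact h.trans h2000
  have hsq : Real.sqrt n * Real.sqrt n = n := Real.mul_self_sqrt (by linarith)
  constructor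
  · nlinarith
  · nlinarith

theorem big {n : ℕ} (hn : 2000 ≤ n) :
    2 * ell (ind 3) n.factorial + Real.log 9 ≤ Real.log n.factorial := by
  have h1 := extra (n := n) (by omega)
  have h2 := A_bound n
  have h3 := M_bound (n := n) (by omega)
  have hn' : (2000 : ℝ) ≤ n := by exact_mod_cast hn
  have hpsi : ∑ d ∈ Ioc 0 n, vonMangoldt d ≤ Real.log 4 * n + 2 * Real.sqrt n * Real.log n := by
    have := Chebyshev.psi_le (x := (n : ℝ)) (by linarith)
    rw [Chebyshev.psi, Nat.floor_natCast] at this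
    exact this
  have hsplit : ∑ d ∈ Ioc 0 n, (1 + chi d) * vonMangoldt d * ((n / d : ℕ) : ℝ)
      = Real.log n.factorial + ∑ d ∈ Ioc 0 n, chi d * vonMangoldt d * ((n / d : ℕ) : ℝ) := by
    rw [log_factorial, ← Finset.sum_add_distrib]
    refine Finset.sum_congr rfl fun d _ => ?_
    ring
  rw [hsplit] at h1
  obtain ⟨hs1, hs2⟩ := sqrt_log_bound hn
  have h9 : Real.log 9 = 2 * Real.log 3 := by
    rw [show (9 : ℝ) = 3 ^ 2 by norm_num, Real.log_pow]; norm_num
  have h4 : Real.log 4 = 2 * Real.log 2 := by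
    rw [show (4 : ℝ) = 2 ^ 2 by norm_num, Real.log_pow]; norm_num
  rw [h4] at hpsi
  rw [h9]
  have hL1 := LL_lo
  have hL2 := LL_hi
  have l2a := Real.log_two_gt_d9
  have l2b := Real.log_two_lt_d9
  have l3a := log3_lo
  have l3b := log3_hi
  have l5a := log5_lo
  have l5b := log5_hi
  set A := ∑ d ∈ Ioc 0 n, chi d * vonMangoldt d * ((n / d : ℕ) : ℝ) with hA
  set Ps := ∑ d ∈ Ioc 0 n, vonMangoldt d with hPs
  set M := ∑ j ∈ Ioc 0 n, chi j * Real.log j * ((n : ℝ) / j - 9 / 10) with hM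
  have hLpos : 0 < LL := by linarith
  -- M <= - c n
  have hM' : M ≤ -(2141 / 10000) * n + 35 / 100 := by
    have : (2 / 15 : ℝ) * Real.log 5 * n ≥ 2 / 15 * (103 / 64) * n := by
      apply mul_le_mul_of_nonneg_right _ (by linarith)
      linarith
    nlinarith
  have hMneg : M ≤ 0 := by linarith
  have hA2 : A ≤ M / LL + 835 / 1000 * Ps := by
    have : LL * A ≤ LL * (M / LL + 835 / 1000 * Ps) := by
      rw [mul_add, mul_div_cancel₀ _ hLpos.ne']
      linarith
    exact le_of_mul_le_mul_left this hLpos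
  have hML : M / LL ≤ M / (6047 / 10000) := by
    rw [div_le_div_iff₀ hLpos (by norm_num)]
    nlinarith
  have hPs2 : Ps ≤ (172631 / 100000) * n := by
    have : 2 * Real.log 2 * n ≤ 2 * 0.6931471808 * n := by
      apply mul_le_mul_of_nonneg_right _ (by linarith)
      linarith
    nlinarith
  have e3 : Real.log 3 * (13 / 27 * (n : ℝ) - 3) ≥ 78 / 71 * (13 / 27 * (n : ℝ) - 3) := by
    apply mul_le_mul_of_nonneg_right l3a; linarith
  have e2 : 2 * Real.log 2 * (21 / 64 * (n : ℝ) - 3) ≥ 2 * 0.6931471803 * (21 / 64 * (n : ℝ) - 3) := by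
    apply mul_le_mul_of_nonneg_right _ (by linarith); linarith
  have e5 : 2 * Real.log 5 * ((n : ℝ) / 25 - 1) ≥ 2 * (103 / 64) * ((n : ℝ) / 25 - 1) := by
    apply mul_le_mul_of_nonneg_right _ (by linarith); linarith
  have hML2 : M / (6047 / 10000) ≤ (-(2141 / 10000) * n + 35 / 100) / (6047 / 10000) := by
    apply div_le_div_of_nonneg_right hM' (by norm_num)
  have : A + 2 * Real.log 3 ≤ (Real.log 3 * (13 / 27 * (n : ℝ) - 3) + 2 * Real.log 2 * (21 / 64 * (n : ℝ) - 3)
        + 2 * Real.log 5 * ((n : ℝ) / 25 - 1)) := by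
    norm_num at hML2 e2 e3 e5 ⊢
    linarith
  linarith

end FacPow
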